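import Mathlib

namespace Pool.Agent.H.MP_8aa36a_lc

/-- number of vertices in unary, and a list of edges `(u, v, colour)` -/
abbrev CG := List Unit × List (ℕ × ℕ × ℕ)

/-- `u v` is listed as an edge of colour `c` -/
def col (a : CG) (u v : Fin a.1.length) (c : ℕ) : Prop := (u.1, v.1, c) ∈ a.2 ∨ (v.1, u.1, c) ∈ a.2

/-- the underlying graph -/
def G (a : CG) : SimpleGraph (Fin a.1.length) := SimpleGraph.fromRel fun u v => ∃ c, col a u v c

/-- a 4-regular graph with a proper edge-colouring by the colours `0, 1, 2, 3` -/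
def Valid (a : CG) : Prop :=
  (∀ e ∈ a.2, e.1 < a.1.length ∧ e.2.1 < a.1.length ∧ e.1 ≠ e.2.1 ∧ e.2.2 < 4) ∧
  (∀ u v c c', col a u v c → col a u v c' → c = c') ∧ (∀ u v w c, col a u v c → col a u w c → v = w) ∧
  ∀ v, ((G a).neighborSet v).ncard = 4

/-- the coloured graph has a faithful drawing -/
def Faithful (a : CG) : Prop :=
  ∃ p : Fin a.1.length → EuclideanSpace ℝ (Fin 2), Function.Injective p ∧
    (∀ c, ∃ z, ∀ u v, col a u v c → z ∈ line[ℝ, p u, p v]) ∧
    ∀ u v u' v', (G a).Adj u v → (G a).Adj u' v' → s(u, v) ≠ s(u', v') → line[ℝ, p u, p v] ≠ line[ℝ, p u', p v']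

structure Nb (n : ℕ) (nb : ℕ → ℕ → ℕ) : Prop where
  lt : ∀ c < 4, ∀ v < n, nb c v < n
  inv : ∀ c < 4, ∀ v < n, nb c (nb c v) = v
  ne : ∀ c < 4, ∀ v < n, nb c v ≠ v
  inj : ∀ c < 4, ∀ c' < 4, ∀ v < n, nb c v = nb c' v → c = c'

def cg (n : ℕ) (nb : ℕ → ℕ → ℕ) : CG :=
  (List.replicate n (), (List.range n).flatMap fun v => (List.range 4).map fun c => (v, nb c v, c))

variable {n : ℕ} {nb : ℕ → ℕ → ℕ}

theorem cg_len : (cg n nb).1.length = n := by simp [cg]

theorem mem_cg {u v c} : (u, v, c) ∈ (cg n nb).2 ↔ u < n ∧ c < 4 ∧ v = nb c u := by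
  simp only [cg, List.mem_flatMap, List.mem_range, List.mem_map, Prod.mk.injEq]
  constructor
  · rintro ⟨_, h, _, h', rfl, rfl, rfl⟩; exact ⟨h, h', rfl⟩
  · rintro ⟨h, h', rfl⟩; exact ⟨_, h, _, h', rfl, rfl, rfl⟩

theorem flt (u : Fin (cg n nb).1.length) : u.1 < n := u.2.trans_eq cg_len

theorem col_cg (h : Nb n nb) {u v c} : col (cg n nb) u v c ↔ c < 4 ∧ v.1 = nb c u.1 := by
  simp only [col, mem_cg]
  constructor
  · rintro (⟨-, a, b⟩ | ⟨a, b, e⟩)
    · exact ⟨a, b⟩
    · exact ⟨b, by rw [e, h.inv c b _ a]⟩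
  · exact fun ⟨a, b⟩ => Or.inl ⟨flt u, a, b⟩

theorem adj_cg (h : Nb n nb) {u v} : (G (cg n nb)).Adj u v ↔ ∃ c < 4, v.1 = nb c u.1 := by
  simp only [G, SimpleGraph.fromRel_adj, col_cg h]
  constructor
  · rintro ⟨-, a | ⟨c, a, b⟩⟩
    · exact a
    · exact ⟨c, a, by rw [b, h.inv c a _ (flt v)]⟩
  · rintro ⟨c, a, b⟩
    exact ⟨fun e => h.ne c a _ (flt u) (by rw [← b, e]), Or.inl ⟨c, a, b⟩⟩

theorem valid_cg (h : Nb n nb) : Valid (cg n nb) := by
  refine ⟨?_, fun u v c c' a b => ?_, fun u v w c a b => ?_, fun v => ?_⟩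
  · rintro ⟨u, v, c⟩ he
    obtain ⟨a, b, rfl⟩ := mem_cg.1 he
    exact ⟨cg_len.symm ▸ a, cg_len.symm ▸ h.lt c b u a, (h.ne c b u a).symm, b⟩
  · rw [col_cg h] at a b
    exact h.inj c a.1 c' b.1 _ (flt u) (a.2.symm.trans b.2)
  · rw [col_cg h] at a b
    exact Fin.ext (a.2.trans b.2.symm)
  · let f : Fin 4 → Fin (cg n nb).1.length := fun c => ⟨nb c v, (h.lt c c.2 v (flt v)).trans_eq cg_len.symm⟩
    have e : (G (cg n nb)).neighborSet v = Set.range f := by
      ext u
      simp only [SimpleGraph.mem_neighborSet, adj_cg h, Set.mem_range]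
      exact ⟨fun ⟨c, a, b⟩ => ⟨⟨c, a⟩, Fin.ext b.symm⟩, fun ⟨c, b⟩ => ⟨c, c.2, (congrArg Fin.val b).symm⟩⟩
    have i : Function.Injective f := fun c c' q => Fin.ext (h.inj c c.2 c' c'.2 _ (flt v) (congrArg Fin.val q))
    rw [e, Set.ncard_range_of_injective i]; simp

abbrev Pt := EuclideanSpace ℝ (Fin 2)
abbrev V3 := ℝ × ℝ × ℝ

def d3 (a b c : V3) : ℝ :=
  a.1 * (b.2.1 * c.2.2 - b.2.2 * c.2.1) - a.2.1 * (b.1 * c.2.2 - b.2.2 * c.1) + a.2.2 * (b.1 * c.2.1 - b.2.1 * c.1)

def hm (p : Pt) : V3 := (p 0, p 1, 1)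

theorem d3_of_mem {p q a b c : Pt} (ha : a ∈ line[ℝ, p, q]) (hb : b ∈ line[ℝ, p, q]) (hc : c ∈ line[ℝ, p, q]) :
    d3 (hm a) (hm b) (hm c) = 0 := by
  rw [mem_affineSpan_pair_iff_exists_lineMap_eq] at ha hb hc
  obtain ⟨r, rfl⟩ := ha
  obtain ⟨s, rfl⟩ := hb
  obtain ⟨t, rfl⟩ := hc
  simp [d3, hm, AffineMap.lineMap_apply]
  ring

theorem mem_of_d3 {p q a : Pt} (hne : p ≠ q) (h : d3 (hm p) (hm q) (hm a) = 0) : a ∈ line[ℝ, p, q] := by
  rw [mem_affineSpan_pair_iff_exists_lineMap_eq]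
  simp only [d3, hm] at h
  by_cases e : q 0 - p 0 = 0
  · have e' : q 1 - p 1 ≠ 0 := fun e' => hne (by
      ext i; fin_cases i
      · exact (sub_eq_zero.1 e).symm
      · exact (sub_eq_zero.1 e').symm)
    refine ⟨(a 1 - p 1) / (q 1 - p 1), ?_⟩
    ext i; fin_cases i
    · simp [AffineMap.lineMap_apply]; field_simp; linear_combination h
    · simp [AffineMap.lineMap_apply]; field_simp; ring
  · refine ⟨(a 0 - p 0) / (q 0 - p 0), ?_⟩
    ext i; fin_cases i
    · simp [AffineMap.lineMap_apply]; field_simp; ring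
    · simp [AffineMap.lineMap_apply]; field_simp; linear_combination -h

/-- coordinates in which the first two pencils are horizontal and vertical -/
def Co (n : ℕ) (nb : ℕ → ℕ → ℕ) : Prop := ∃ (x y : ℕ → ℝ) (d1 d2 d3 : ℝ),
  (∀ u < n, ∀ v < n, x u = x v → y u = y v → u = v) ∧ (∀ v < n, y (nb 0 v) = y v ∧ x (nb 1 v) = x v ∧
    (x (nb 3 v) - x v) * (d2 - d3 * y v) = (y (nb 3 v) - y v) * (d1 - d3 * x v) ∧ d1 - d3 * x v ≠ 0 ∧ d2 - d3 * y v ≠ 0) ∧
  ((∀ v < n, x (nb 2 v) - y (nb 2 v) = x v - y v) ∨ ∀ v < n, x v ≠ 0 ∧ y v ≠ 0 ∧ x (nb 2 v) * y v = x v * y (nb 2 v))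

theorem co_alg (h0 : 0 < n) (h : ℕ → V3) (z : ℕ → V3) (one : ∀ v < n, (h v).2.2 = 1)
    (inj : ∀ u < n, ∀ v < n, h u = h v → u = v)
    (nd : ∀ v < n, ∀ c < 4, ∀ c' < 4, c ≠ c' → d3 (z c) (z c') (h v) ≠ 0)
    (lt : ∀ c < 4, ∀ v < n, nb c v < n) (on : ∀ v < n, ∀ c < 4, d3 (h v) (h (nb c v)) (z c) = 0) : Co n nb := by
  have key : ∀ (O : V3) (α β : ℝ), d3 (z 0) (z 1) O ≠ 0 → α ≠ 0 → β ≠ 0 →
      ((d3 (z 2) (z 1) O = α ∧ d3 (z 0) (z 2) O = β ∧ d3 (z 0) (z 1) (z 2) = 0) ∨ O = z 2) → Co n nb := by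
    intro O α β hD hα hβ hc
    let T : V3 → V3 := fun u => (d3 u (z 1) O, d3 (z 0) u O, d3 (z 0) (z 1) u)
    have mul : ∀ u v w, d3 (T u) (T v) (T w) = d3 (z 0) (z 1) O ^ 2 * d3 u v w := fun u v w => by
      simp only [T, d3]; ring
    have T0 : T (z 0) = (d3 (z 0) (z 1) O, 0, 0) := by simp only [T, d3, Prod.mk.injEq, true_and]; constructor <;> ring
    have T1 : T (z 1) = (0, d3 (z 0) (z 1) O, 0) := by
      simp only [T, d3, Prod.mk.injEq, true_and]; constructor <;> ring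
    have TO : T O = (0, 0, d3 (z 0) (z 1) O) := by
      simp only [T, d3, Prod.mk.injEq, and_true]; constructor <;> ring
    have cr : ∀ u : V3, d3 (z 0) (z 1) O • u = (T u).1 • z 0 + (T u).2.1 • z 1 + (T u).2.2 • O := fun u => by
      refine Prod.ext ?_ (Prod.ext ?_ ?_) <;> simp [T, d3] <;> ring
    have p3 : ∀ v < n, (T (h v)).2.2 ≠ 0 := fun v hv => nd v hv 0 (by omega) 1 (by omega) (by omega)
    have on' : ∀ v < n, ∀ c < 4, d3 (T (h v)) (T (h (nb c v))) (T (z c)) = 0 := fun v hv c hc => by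
      rw [mul, on v hv c hc, mul_zero]
    have nd' : ∀ v < n, ∀ c < 4, ∀ c' < 4, c ≠ c' → d3 (T (z c)) (T (z c')) (T (h v)) ≠ 0 := fun v hv c a c' b e => by
      rw [mul]; exact mul_ne_zero (pow_ne_zero _ hD) (nd v hv c a c' b e)
    have hc' : T (z 2) = (α, β, 0) ∨ T (z 2) = (0, 0, d3 (z 0) (z 1) O) :=
      hc.imp (fun e => by simp only [T, e.1, e.2.1, e.2.2]) fun e => by rw [← TO, e]
    refine ⟨fun v => (T (h v)).1 / ((T (h v)).2.2 * α), fun v => (T (h v)).2.1 / ((T (h v)).2.2 * β),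
      (T (z 3)).1 / α, (T (z 3)).2.1 / β, (T (z 3)).2.2, fun u hu v hv e1 e2 => inj u hu v hv ?_, fun v hv => ?_,
      hc'.imp (fun e v hv => ?_) fun e v hv => ?_⟩
    · have a := cr (h u)
      have b := cr (h v)
      have a3 := congrArg (fun w : V3 => w.2.2) a
      have b3 := congrArg (fun w : V3 => w.2.2) b
      have pu := p3 u hu
      have pv := p3 v hv
      simp only [Prod.smul_snd, Prod.snd_add, smul_eq_mul, one u hu, one v hv] at a3 b3
      beta_reduce at e1 e2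
      generalize T (h u) = s at *
      generalize T (h v) = t at *
      field_simp at e1 e2
      have : s.2.2 = t.2.2 := mul_left_cancel₀ hD (by
        linear_combination s.2.2 * b3 - t.2.2 * a3 - (z 0).2.2 * e1 - (z 1).2.2 * e2)
      have f1 : s.1 = t.1 := mul_left_cancel₀ pv (by rw [this] at e1; linear_combination e1)
      have f2 : s.2.1 = t.2.1 := mul_left_cancel₀ pv (by rw [this] at e2; linear_combination e2)
      exact smul_right_injective _ hD (by simp only [a, b, this, f1, f2])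
    · have a0 := on' v hv 0 (by omega)
      have a1 := on' v hv 1 (by omega)
      have a3 := on' v hv 3 (by omega)
      have b0 := nd' v hv 0 (by omega) 3 (by omega) (by omega)
      have b1 := nd' v hv 1 (by omega) 3 (by omega) (by omega)
      have q := p3 v hv
      have q0 := p3 _ (lt 0 (by omega) v hv)
      have q1 := p3 _ (lt 1 (by omega) v hv)
      have q3 := p3 _ (lt 3 (by omega) v hv)
      rw [T0] at a0 b0
      rw [T1] at a1 b1
      beta_reduce
      generalize d3 (z 0) (z 1) O = D at *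
      generalize T (h v) = s at *
      generalize T (h (nb 0 v)) = s0 at *
      generalize T (h (nb 1 v)) = s1 at *
      generalize T (h (nb 3 v)) = s3 at *
      generalize T (z 3) = w at *
      simp only [d3] at a0 a1 a3 b0 b1
      refine ⟨?_, ?_, ?_, fun e => b1 ?_, fun e => b0 ?_⟩
      · field_simp
        exact mul_left_cancel₀ hD (by linear_combination -a0)
      · field_simp
        exact mul_left_cancel₀ hD (by linear_combination a1)
      · field_simp
        linear_combination s.2.2 * a3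
      · field_simp at e
        linear_combination -D * e
      · field_simp at e
        linear_combination D * e
    · have a2 := on' v hv 2 (by omega)
      have q := p3 v hv
      have q2 := p3 _ (lt 2 (by omega) v hv)
      rw [e] at a2
      beta_reduce
      generalize T (h v) = s at *
      generalize T (h (nb 2 v)) = s2 at *
      simp only [d3] at a2
      field_simp
      linear_combination a2
    · have a2 := on' v hv 2 (by omega)
      have b0 := nd' v hv 0 (by omega) 2 (by omega) (by omega)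
      have b1 := nd' v hv 1 (by omega) 2 (by omega) (by omega)
      have q := p3 v hv
      have q2 := p3 _ (lt 2 (by omega) v hv)
      rw [e] at a2 b0 b1
      rw [T0] at b0
      rw [T1] at b1
      beta_reduce
      generalize d3 (z 0) (z 1) O = D at *
      generalize T (h v) = s at *
      generalize T (h (nb 2 v)) = s2 at *
      simp only [d3] at a2 b0 b1
      refine ⟨div_ne_zero (fun e => b1 (by rw [e]; ring)) (mul_ne_zero q hα),
        div_ne_zero (fun e => b0 (by rw [e]; ring)) (mul_ne_zero q hβ), ?_⟩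
      field_simp
      exact mul_left_cancel₀ hD (by linear_combination -a2)
  by_cases c : d3 (z 0) (z 1) (z 2) = 0
  · exact key (h 0) _ _ (nd 0 h0 0 (by omega) 1 (by omega) (by omega)) (nd 0 h0 2 (by omega) 1 (by omega) (by omega))
      (nd 0 h0 0 (by omega) 2 (by omega) (by omega)) (Or.inl ⟨rfl, rfl, c⟩)
  · exact key (z 2) 1 1 c one_ne_zero one_ne_zero (Or.inr rfl)

theorem co_of (h : Nb n nb) (h0 : 0 < n) (hf : Faithful (cg n nb)) : Co n nb := by
  obtain ⟨p, inj, hz, dis⟩ := hf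
  choose Z hZ using hz
  let ix : ∀ v < n, Fin (cg n nb).1.length := fun v hv => ⟨v, hv.trans_eq cg_len.symm⟩
  let q : ℕ → Pt := fun v => if hv : v < n then p (ix v hv) else 0
  have eq : ∀ v (hv : v < n), q v = p (ix v hv) := fun v hv => dif_pos hv
  have qi : ∀ u < n, ∀ v < n, q u = q v → u = v := fun u hu v hv e => by
    rw [eq u hu, eq v hv] at e
    exact congrArg Fin.val (inj e)
  have f0 : ∀ v < n, ∀ c < 4, Z c ∈ line[ℝ, q v, q (nb c v)] := fun v hv c hc => by
    rw [eq v hv, eq _ (h.lt c hc v hv)]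
    exact hZ c _ _ ((col_cg h).2 ⟨hc, rfl⟩)
  have f1 : ∀ v < n, ∀ c < 4, ∀ c' < 4, line[ℝ, q v, q (nb c v)] = line[ℝ, q v, q (nb c' v)] → c = c' :=
    fun v hv c hc c' hc' e => by
      by_contra hn
      rw [eq v hv, eq _ (h.lt c hc v hv), eq _ (h.lt c' hc' v hv)] at e
      refine dis _ _ _ _ ((adj_cg h).2 ⟨c, hc, rfl⟩) ((adj_cg h).2 ⟨c', hc', rfl⟩) (fun k => hn ?_) e
      exact h.inj c hc c' hc' v hv (congrArg Fin.val (Sym2.congr_right.1 k))
  have f2 : ∀ v < n, ∀ c < 4, q v ≠ Z c := fun v hv c hc e => by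
    obtain ⟨c', hc', hn⟩ : ∃ c' < 4, c ≠ c' := ⟨if c = 0 then 1 else 0, by split_ifs <;> omega, by split_ifs <;> omega⟩
    have hu := h.lt c' hc' v hv
    refine hn (f1 _ hu c hc c' hc' ?_)
    rw [h.inv c' hc' v hv]
    refine (affineSpan_pair_eq_of_mem_of_mem_of_ne (left_mem_affineSpan_pair _ _ _)
      (e ▸ f0 _ hu c hc) fun k => h.ne c' hc' v hv (qi _ hu _ hv k)).symm
  refine co_alg h0 (fun v => hm (q v)) (fun c => hm (Z c)) (fun _ _ => rfl) (fun u hu v hv e => qi u hu v hv ?_)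
    (fun v hv c hc c' hc' hn e => hn (f1 v hv c hc c' hc' ?_)) h.lt fun v hv c hc =>
      d3_of_mem (left_mem_affineSpan_pair _ _ _) (right_mem_affineSpan_pair _ _ _) (f0 v hv c hc)
  · simp only [hm, Prod.mk.injEq, and_true] at e
    ext i; fin_cases i
    · exact e.1
    · exact e.2
  · have a := affineSpan_pair_eq_of_mem_of_mem_of_ne (left_mem_affineSpan_pair _ _ _) (f0 v hv c hc) (f2 v hv c hc)
    have b := affineSpan_pair_eq_of_mem_of_mem_of_ne (left_mem_affineSpan_pair _ _ _) (f0 v hv c' hc') (f2 v hv c' hc')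
    rw [← a, ← b]
    refine (affineSpan_pair_eq_of_mem_of_mem_of_ne (left_mem_affineSpan_pair _ _ _)
      (mem_of_d3 (f2 v hv c hc) ?_) (f2 v hv c' hc')).symm
    simp only [d3] at e ⊢
    linear_combination e

end Pool.Agent.H.MP_8aa36a_lc
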