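import Pool.Agent.H.MP_8aa36a_lc.A

namespace Pool.Agent.H.MP_8aa36a_lc

open Filter Polynomial

variable {n : ℕ} {nb : ℕ → ℕ → ℕ}

theorem ev_poly (p : ℝ[X]) (hp : p ≠ 0) : ∀ᶠ T in cofinite, p.eval T ≠ 0 := Polynomial.eventually_cofinite_not_isRoot hp

theorem ev (i j : ℕ) (a b a' b' : ℝ) (h : (i ≠ j ∧ a ≠ 0) ∨ (i = j ∧ (a ≠ a' ∨ b ≠ b'))) :
    ∀ᶠ T : ℝ in cofinite, a * T ^ (i + 1) + b ≠ a' * T ^ (j + 1) + b' := by
  have : (C a * X ^ (i + 1) + C b - (C a' * X ^ (j + 1) + C b') : ℝ[X]) ≠ 0 := fun e => by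
    have h1 := congrArg (coeff · (i + 1)) e
    have h2 := congrArg (coeff · 0) e
    simp [coeff_X_pow, coeff_C] at h1 h2
    rcases h with ⟨h, ha⟩ | ⟨rfl, ha | hb⟩
    · simp [h] at h1; exact ha h1
    · simp at h1; exact ha (sub_eq_zero.1 h1)
    · exact hb (sub_eq_zero.1 h2)
  filter_upwards [ev_poly _ this] with T hT e
  exact hT (by simp [e])

theorem ev_all {n : ℕ} {p : ℕ → ℝ → Prop} (h : ∀ u < n, ∀ᶠ T in cofinite, p u T) : ∀ᶠ T in cofinite, ∀ u < n, p u T :=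
  (eventually_all_finite (Set.finite_Iio n)).2 h

theorem ev_imp {q : Prop} {p : ℝ → Prop} (h : q → ∀ᶠ T in cofinite, p T) : ∀ᶠ T in cofinite, q → p T := by
  by_cases g : q
  · exact (h g).mono fun _ a _ => a
  · exact Eventually.of_forall fun _ a => absurd a g

/-- three parallel classes and one pencil -/
def Co' (n : ℕ) (nb : ℕ → ℕ → ℕ) : Prop := ∃ x y : ℕ → ℝ,
  (∀ v < n, y (nb 0 v) = y v ∧ x (nb 1 v) = x v ∧ x (nb 2 v) - y (nb 2 v) = x v - y v ∧
    x (nb 3 v) * y v = x v * y (nb 3 v) ∧ x v ≠ 0 ∧ y v ≠ 0 ∧ x v ≠ y v) ∧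
  ∀ u < n, ∀ v < n, u ≠ v → (v ≠ nb 0 u → y u ≠ y v) ∧ (v ≠ nb 1 u → x u ≠ x v) ∧
    (v ≠ nb 2 u → x u - y u ≠ x v - y v) ∧ (v ≠ nb 3 u → x u * y v ≠ x v * y u)

theorem of_co (h : Nb n nb) (hc : Co' n nb) : Faithful (cg n nb) := by
  obtain ⟨x, y, h1, h2⟩ := hc
  let lam : ℝ → V3 → ℝ := fun t z => z.2.1 * t ^ 2 + z.1 * t + z.2.2
  let z : ℕ → V3 := fun c => if c = 0 then (1, 0, 0) else if c = 1 then (0, 1, 0) else if c = 2 then (1, 1, 0) else (0, 0, 1)
  let w : ℕ → V3 := fun v => (x v, y v, 1)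
  have g : ∀ u : V3, u ≠ 0 → ∀ᶠ t in cofinite, lam t u ≠ 0 := fun u hu => by
    have : (C u.2.1 * X ^ 2 + C u.1 * X + C u.2.2 : ℝ[X]) ≠ 0 := fun e => by
      have h0 := congrArg (coeff · 0) e
      have h1 := congrArg (coeff · 1) e
      have h2 := congrArg (coeff · 2) e
      simp [coeff_X_pow, coeff_C, coeff_X] at h0 h1 h2
      exact hu (Prod.ext h1 (Prod.ext h2 h0))
    filter_upwards [ev_poly _ this] with T hT e
    exact hT (by simpa [lam] using e)
  obtain ⟨t, t1, t2⟩ := ((ev_all (n := n) fun v _ => g (w v) (by simp [w])).and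
    (ev_all (n := 4) fun c _ => g (z c) (by simp only [z]; split_ifs <;> simp))).exists
  let pt : V3 → Pt := fun u => !₂[u.1 / lam t u, u.2.1 / lam t u]
  have key : ∀ a b c : V3, lam t a ≠ 0 → lam t b ≠ 0 → lam t c ≠ 0 →
      (d3 (hm (pt a)) (hm (pt b)) (hm (pt c)) = 0 ↔ d3 a b c = 0) := fun a b c ha hb hc => by
    have : d3 (hm (pt a)) (hm (pt b)) (hm (pt c)) * (lam t a * lam t b * lam t c) = d3 a b c := by
      simp only [d3, hm, pt, Matrix.cons_val_zero, Matrix.cons_val_one]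
      field_simp
      simp only [lam]; ring
    rw [← this, mul_eq_zero, or_iff_left (mul_ne_zero (mul_ne_zero ha hb) hc)]
  have dis : ∀ u < n, ∀ v < n, ∀ c < 4, d3 (w u) (w v) (z c) = 0 → u = v ∨ v = nb c u := fun u hu v hv c hc e => by
    by_contra hn
    push Not at hn
    obtain ⟨a0, a1, a2, a3⟩ := h2 u hu v hv hn.1
    interval_cases c <;> simp [d3, w, z] at e
    · exact a0 hn.2 (by linarith)
    · exact a1 hn.2 (by linarith)
    · exact a2 hn.2 (by linarith)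
    · exact a3 hn.2 (by linarith)
  have pinj : ∀ u < n, ∀ v < n, pt (w u) = pt (w v) → u = v := fun u hu v hv e => by
    have k : ∀ c < 4, u = v ∨ v = nb c u := fun c hc => dis u hu v hv c hc
      ((key _ _ _ (t1 u hu) (t1 v hv) (t2 c hc)).1 (by rw [e]; simp only [d3]; ring))
    rcases k 0 (by omega) with a | a
    · exact a
    rcases k 1 (by omega) with b | b
    · exact b
    exact absurd (h.inj 0 (by omega) 1 (by omega) u hu (a.symm.trans b)) (by omega)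
  have on : ∀ v < n, ∀ c < 4, pt (z c) ∈ line[ℝ, pt (w v), pt (w (nb c v))] := fun v hv c hc => by
    refine mem_of_d3 (fun e => h.ne c hc v hv (pinj _ hv _ (h.lt c hc v hv) e).symm)
      ((key _ _ _ (t1 v hv) (t1 _ (h.lt c hc v hv)) (t2 c hc)).2 ?_)
    obtain ⟨a0, a1, a2, a3, -⟩ := h1 v hv
    interval_cases c <;> simp [d3, w, z] <;> linarith
  refine ⟨fun v => pt (w v), fun u v e => Fin.ext (pinj _ (flt u) _ (flt v) e), fun c => ⟨pt (z c), fun u v e => ?_⟩,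
    fun u v u' v' a a' hn e => hn ?_⟩
  · obtain ⟨hc, e⟩ := (col_cg h).1 e
    simp only [e]
    exact on u (flt u) c hc
  · obtain ⟨c, hc, b⟩ := (adj_cg h).1 a
    obtain ⟨c', hc', b'⟩ := (adj_cg h).1 a'
    have m1 := on u (flt u) c hc
    have m2 := on u' (flt u') c' hc'
    simp only [b, b'] at e
    rw [← e] at m2
    have m3 : pt (w u') ∈ line[ℝ, pt (w u), pt (w (nb c u))] := e ▸ left_mem_affineSpan_pair _ _ _
    obtain rfl : c = c' := by
      have := (key _ _ _ (t1 u (flt u)) (t2 c hc) (t2 c' hc')).1 (d3_of_mem (left_mem_affineSpan_pair _ _ _) m1 m2)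
      obtain ⟨-, -, -, -, a1, a2, a3⟩ := h1 u (flt u)
      interval_cases c <;> interval_cases c' <;> simp [d3, w, z, a1, a2] at this ⊢ <;> exact a3 (by linarith)
    rcases dis u (flt u) u' (flt u') c hc ((key _ _ _ (t1 u (flt u)) (t1 u' (flt u')) (t2 c hc)).1
      (d3_of_mem (left_mem_affineSpan_pair _ _ _) m3 m1)) with k | k
    · rw [Fin.ext k, show v = v' from Fin.ext (by rw [b, b', k])]
    · rw [show u = v' from Fin.ext (by rw [b', k, h.inv c hc _ (flt u)]), show v = u' from Fin.ext (by rw [b, k]),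
        Sym2.eq_swap]

def fl (f : ℕ) : ℕ := if f % 2 = 0 then f + 1 else f - 1
def rot (f : ℕ) : ℕ := if f % 6 = 0 then f + 5 else if f % 6 = 5 then f - 5 else if f % 2 = 1 then f + 1 else f - 1
def sg (s : ℕ → ℕ) (f : ℕ) : ℕ := 6 * s (f / 6) + f % 6

def nbr (s β : ℕ → ℕ) (c v : ℕ) : ℕ :=
  if c = 0 then 4 * fl (v / 4) + v % 4
  else if c = 1 then 4 * (if v % 2 = 0 then rot (v / 4) else β (v / 4)) + v % 4
  else if c = 2 then fl v
  else if v % 2 = 0 ∧ s (v / 24) ≠ v / 24 then 4 * sg s (v / 4) + v % 4 else if v % 4 < 2 then v + 2 else v - 2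

structure Tri (H : ℕ) (s β : ℕ → ℕ) : Prop where
  slt : ∀ h < H, s h < H
  sinv : ∀ h < H, s (s h) = h
  blt : ∀ f < 6 * H, β f < 6 * H
  binv : ∀ f < 6 * H, β (β f) = f
  bne : ∀ f < 6 * H, β f / 2 ≠ f / 2
  bfl : ∀ f < 6 * H, β (fl f) = fl (β f)
  bg : ∀ f < 6 * H, β f / 24 = f / 24

variable {H : ℕ} {s β : ℕ → ℕ}

theorem fl_fl (f) : fl (fl f) = f := by unfold fl; split_ifs <;> omega
theorem rot_rot (f) : rot (rot f) = f := by unfold rot; split_ifs <;> omega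
theorem fl_div (f) : fl f / 2 = f / 2 ∧ fl f ≠ f ∧ fl f / 6 = f / 6 := by unfold fl; split_ifs <;> omega
theorem rot_div (f) : rot f / 6 = f / 6 ∧ rot f / 2 ≠ f / 2 := by unfold rot; split_ifs <;> omega
theorem sg_div (f) : sg s f / 6 = s (f / 6) ∧ sg s f % 6 = f % 6 := by unfold sg; omega
theorem sg_fl (f) : sg s (fl f) = fl (sg s f) := by
  unfold sg; rw [(fl_div f).2.2]; unfold fl; split_ifs <;> omega
theorem sg_rot (f) : sg s (rot f) = rot (sg s f) := by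
  unfold sg; rw [(rot_div f).1]; unfold rot; split_ifs <;> omega

theorem nb0 (f) {r} (hr : r < 4) : nbr s β 0 (4 * f + r) = 4 * fl f + r := by
  simp only [nbr, if_true, show (4 * f + r) / 4 = f by omega, show (4 * f + r) % 4 = r by omega]
theorem nb1 (f) {r} (hr : r < 4) : nbr s β 1 (4 * f + r) = 4 * (if r % 2 = 0 then rot f else β f) + r := by
  simp only [nbr, one_ne_zero, if_true, if_false, show (4 * f + r) / 4 = f by omega, show (4 * f + r) % 4 = r by omega,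
    show (4 * f + r) % 2 = r % 2 by omega]
theorem nb2 (f r) : nbr s β 2 (4 * f + r) = 4 * f + fl r := by
  simp only [nbr, fl, show (2 : ℕ) ≠ 0 by omega, show (2 : ℕ) ≠ 1 by omega, if_true, if_false]
  split_ifs <;> omega
theorem nb3 (f) {r} (hr : r < 4) : nbr s β 3 (4 * f + r) =
    if r % 2 = 0 ∧ s (f / 6) ≠ f / 6 then 4 * sg s f + r else 4 * f + (r + 2) % 4 := by
  simp only [nbr, show (3 : ℕ) ≠ 0 by omega, show (3 : ℕ) ≠ 1 by omega, show (3 : ℕ) ≠ 2 by omega, if_false,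
    show (4 * f + r) / 4 = f by omega, show (4 * f + r) % 4 = r by omega, show (4 * f + r) % 2 = r % 2 by omega,
    show (4 * f + r) / 24 = f / 6 by omega]
  split_ifs <;> omega

theorem vform {v : ℕ} (hv : v < 24 * H) : ∃ f r, f < 6 * H ∧ r < 4 ∧ v = 4 * f + r :=
  ⟨v / 4, v % 4, by omega, by omega, by omega⟩

theorem Tri.toNb (h : Tri H s β) : Nb (24 * H) (nbr s β) := by
  have k : ∀ f < 6 * H, ∀ r < 4, ∀ c < 4, ∃ f' r', f' < 6 * H ∧ r' < 4 ∧ nbr s β c (4 * f + r) = 4 * f' + r' ∧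
      nbr s β c (4 * f' + r') = 4 * f + r ∧ ((c = 0 ∧ f' / 2 = f / 2 ∧ f' ≠ f ∧ r' = r) ∨
        (c = 1 ∧ f' / 2 ≠ f / 2 ∧ r' = r ∧ (r % 2 = 0 → f' / 6 = f / 6)) ∨ (c = 2 ∧ f' = f ∧ r' % 2 ≠ r % 2) ∨
        (c = 3 ∧ ((r % 2 = 0 ∧ f' / 6 ≠ f / 6 ∧ r' = r) ∨ (f' = f ∧ r' % 2 = r % 2 ∧ r' ≠ r)))) := fun f hf r hr c hc => by
    have a := fl_div f
    have b := rot_div f
    interval_cases c
    · exact ⟨fl f, r, by omega, hr, nb0 f hr, by rw [nb0 _ hr, fl_fl], by omega⟩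
    · have b1 := h.blt f hf
      have b2 := h.bne f hf
      refine ⟨_, r, ?_, hr, nb1 f hr, ?_, ?_⟩
      · split_ifs <;> omega
      · rw [nb1 _ hr]; split_ifs
        · rw [rot_rot]
        · rw [h.binv f hf]
      · split_ifs <;> omega
    · have := fl_div r
      exact ⟨f, fl r, hf, by omega, nb2 f r, by rw [nb2, fl_fl], by omega⟩
    · have c1 := @sg_div s f
      have c2 := h.slt (f / 6) (by omega)
      have c3 := h.sinv (f / 6) (by omega)
      by_cases g : r % 2 = 0 ∧ s (f / 6) ≠ f / 6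
      · refine ⟨sg s f, r, by omega, hr, by rw [nb3 f hr, if_pos g], ?_, by omega⟩
        rw [nb3 _ hr, c1.1, c3, if_pos ⟨g.1, g.2.symm⟩]
        have := @sg_div s (sg s f)
        rw [c1.1, c3] at this
        omega
      · refine ⟨f, (r + 2) % 4, hf, by omega, by rw [nb3 f hr, if_neg g], ?_, by omega⟩
        rw [nb3 _ (by omega), if_neg (by omega)]; omega
  refine ⟨fun c hc v hv => ?_, fun c hc v hv => ?_, fun c hc v hv => ?_, fun c hc c' hc' v hv e => ?_⟩ <;>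
    obtain ⟨f, r, hf, hr, rfl⟩ := vform hv <;> obtain ⟨f', r', a1, a2, a3, a4, a5⟩ := k f hf r hr c hc
  · omega
  · rw [a3, a4]
  · omega
  · obtain ⟨f'', r'', b1, b2, b3, b4, b5⟩ := k f hf r hr c' hc'
    omega

end Pool.Agent.H.MP_8aa36a_lc
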