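import Pool.Agent.H.MP_8aa36a_lc.B

namespace Pool.Agent.H.MP_8aa36a_lc

open Filter

variable {H : ℕ} {s β : ℕ → ℕ}

theorem tri_sound (h : Tri H s β) (hc : Co (24 * H) (nbr s β)) : ∃ P : ℕ → ℝ,
    (∀ f < 6 * H, P (rot f) = P f ∧ P f ≠ P (fl f)) ∧
    (∀ g < H, ∃ κ, ∀ f, f / 6 = g → P (sg s f) - P (sg s (fl f)) = κ * (P f - P (fl f))) ∧
    ((∀ f < 6 * H, P (β f) - P (fl (β f)) = P f - P (fl f)) ∨
      ∀ f < 6 * H, P f ≠ 0 ∧ P (β f) * P (fl f) = P f * P (fl (β f))) := by
  obtain ⟨x, y, d1, d2, d3, inj, e, hC⟩ := hc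
  have eA : ∀ f < 6 * H, ∀ r < 4, y (4 * fl f + r) = y (4 * f + r) := fun f hf r hr => by
    rw [← nb0 (s := s) (β := β) f hr]; exact (e _ (by omega)).1
  have eB : ∀ f < 6 * H, x (4 * rot f + 0) = x (4 * f + 0) := fun f hf => by
    have := (e (4 * f + 0) (by omega)).2.1
    rwa [nb1 f (by omega), if_pos rfl] at this
  have eB' : ∀ f < 6 * H, x (4 * β f + 1) = x (4 * f + 1) := fun f hf => by
    have := (e (4 * f + 1) (by omega)).2.1
    rwa [nb1 f (by omega), if_neg (by omega)] at this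
  have lf : ∀ f < 6 * H, fl f < 6 * H := fun f hf => by have := fl_div f; omega
  refine ⟨fun f => x (4 * f + 0), fun f hf => ⟨eB f hf, fun q => ?_⟩, fun g hg => ?_, hC.imp (fun c f hf => ?_) fun c f hf => ?_⟩
  · have := fl_div f
    have := inj _ (by omega) _ (by omega) q (eA f hf 0 (by omega)).symm
    omega
  · by_cases q : s g = g
    · refine ⟨1, fun f hf => ?_⟩
      have : ∀ f, f / 6 = g → sg s f = f := fun f hf => by unfold sg; rw [hf, q]; omega
      rw [this f hf, this _ ((fl_div f).2.2.trans hf), one_mul]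
    have eD : ∀ f, f / 6 = g → (x (4 * sg s f + 0) - x (4 * f + 0)) * (d2 - d3 * y (4 * f + 0)) =
        (y (4 * sg s f + 0) - y (4 * f + 0)) * (d1 - d3 * x (4 * f + 0)) ∧ d1 - d3 * x (4 * f + 0) ≠ 0 ∧
        d2 - d3 * y (4 * f + 0) ≠ 0 := fun f hf => by
      have := (e (4 * f + 0) (by omega)).2.2
      rwa [nb3 f (by omega), if_pos ⟨rfl, by rwa [hf]⟩] at this
    have ls : ∀ f, f / 6 = g → sg s f < 6 * H := fun f hf => by
      have := @sg_div s f
      have := h.slt g hg
      rw [hf] at *; omega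
    let κ : ℕ → ℝ := fun f => (d2 - d3 * y (4 * sg s f + 0)) / (d2 - d3 * y (4 * f + 0))
    have k1 : ∀ f, f / 6 = g → κ (fl f) = κ f := fun f hf => by
      simp only [κ, sg_fl, eA f (by omega) 0 (by omega), eA _ (ls f hf) 0 (by omega)]
    have k0 : ∀ f, f / 6 = g → κ f = (d1 - d3 * x (4 * sg s f + 0)) / (d1 - d3 * x (4 * f + 0)) := fun f hf => by
      obtain ⟨a, b, c⟩ := eD f hf
      simp only [κ]
      rw [div_eq_div_iff c b]
      linear_combination d3 * a
    have k2 : ∀ f, f / 6 = g → κ (rot f) = κ f := fun f hf => by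
      rw [k0 f hf, k0 _ ((rot_div f).1.trans hf), sg_rot, eB f (by omega), eB _ (ls f hf)]
    have k3 : ∀ f, f / 6 = g → κ f = κ (6 * g) := fun f hf => by
      have a1 := k1 (6 * g) (by omega)
      have a2 := k2 (6 * g + 1) (by omega)
      have a3 := k1 (6 * g + 2) (by omega)
      have a4 := k2 (6 * g + 3) (by omega)
      have a5 := k2 (6 * g) (by omega)
      rw [show fl (6 * g) = 6 * g + 1 by unfold fl; split_ifs <;> omega] at a1
      rw [show rot (6 * g + 1) = 6 * g + 2 by unfold rot; split_ifs <;> omega] at a2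
      rw [show fl (6 * g + 2) = 6 * g + 3 by unfold fl; split_ifs <;> omega] at a3
      rw [show rot (6 * g + 3) = 6 * g + 4 by unfold rot; split_ifs <;> omega] at a4
      rw [show rot (6 * g) = 6 * g + 5 by unfold rot; split_ifs <;> omega] at a5
      obtain rfl | rfl | rfl | rfl | rfl | rfl : f = 6 * g ∨ f = 6 * g + 1 ∨ f = 6 * g + 2 ∨ f = 6 * g + 3 ∨
        f = 6 * g + 4 ∨ f = 6 * g + 5 := by omega
      all_goals linarith
    refine ⟨κ (6 * g), fun f hf => ?_⟩
    obtain ⟨a, -, c⟩ := eD f hf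
    obtain ⟨a', -, -⟩ := eD (fl f) ((fl_div f).2.2.trans hf)
    rw [sg_fl, eA f (by omega) 0 (by omega), eA _ (ls f hf) 0 (by omega)] at a'
    rw [← k3 f hf, sg_fl]
    simp only [κ]
    rw [div_mul_eq_mul_div, eq_div_iff c]
    linear_combination a - a'
  · have c' : ∀ f < 6 * H, x (4 * f + 1) - y (4 * f + 1) = x (4 * f + 0) - y (4 * f + 0) := fun f hf => by
      have := c (4 * f + 0) (by omega)
      rwa [nb2] at this
    have k : ∀ f < 6 * H, x (4 * f + 0) - x (4 * fl f + 0) = x (4 * f + 1) - x (4 * fl f + 1) := fun f hf => by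
      linarith [c' f hf, c' _ (lf f hf), eA f hf 0 (by omega), eA f hf 1 (by omega)]
    simp only
    rw [k f hf, k _ (h.blt f hf), ← h.bfl f hf, eB' f hf, eB' _ (lf f hf)]
  · have c' : ∀ f < 6 * H, x (4 * f + 1) * y (4 * f + 0) = x (4 * f + 0) * y (4 * f + 1) := fun f hf => by
      have := (c (4 * f + 0) (by omega)).2.2
      rwa [nb2] at this
    have k : ∀ f < 6 * H, x (4 * f + 0) * x (4 * fl f + 1) = x (4 * f + 1) * x (4 * fl f + 0) := fun f hf => by
      have a1 := c' f hf
      have a2 := c' _ (lf f hf)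
      rw [eA f hf 0 (by omega), eA f hf 1 (by omega)] at a2
      refine mul_left_cancel₀ (c (4 * f + 0) (by omega)).2.1 (mul_left_cancel₀ (c (4 * f + 1) (by omega)).2.1 ?_)
      linear_combination y (4 * f + 1) * x (4 * f + 0) * a2 - y (4 * f + 1) * x (4 * fl f + 0) * a1
    refine ⟨(c _ (by omega)).1, ?_⟩
    have a1 := k f hf
    have a2 := k _ (h.blt f hf)
    rw [← h.bfl f hf, eB' f hf, eB' _ (lf f hf), h.bfl f hf] at a2
    simp only
    refine mul_left_cancel₀ (c (4 * fl f + 1) (by have := lf f hf; omega)).1 ?_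
    linear_combination x (4 * fl f + 0) * a2 - x (4 * fl (β f) + 0) * a1

theorem half {a b : ℕ} (e : a / 2 = b / 2) : a = b ∨ a = fl b := by unfold fl; split_ifs <;> omega

theorem Tri.mn (h : Tri H s β) {a b} (ha : a < H) (hb : b < H) (e : min a (s a) = min b (s b)) : b = a ∨ b = s a := by
  have h1 := h.sinv a ha
  have h2 := h.sinv b hb
  have h3 : a = s b → s a = s (s b) := fun e => by rw [← e]
  have h4 : s a = s b → s (s a) = s (s b) := fun e => by rw [e]
  omega

theorem Tri.qd (h : Tri H s β) {a b} (ha : a < 6 * H) (hb : b < 6 * H)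
    (e : min (a / 2) (β a / 2) = min (b / 2) (β b / 2)) : b = a ∨ b = fl a ∨ b = β a ∨ b = β (fl a) := by
  have h1 := h.binv a ha
  have h2 := h.binv b hb
  have h3 := h.bfl a ha
  have h4 := h.binv (fl a) (by have := fl_div a; omega)
  have k : ∀ c, β b = c → b = β c := fun c e => by rw [← e, h2]
  rcases (by omega : b / 2 = a / 2 ∨ b / 2 = β a / 2 ∨ β b / 2 = a / 2 ∨ β b / 2 = β a / 2) with e | e | e | e <;>
    rcases half e with e | e
  · omega
  · omega
  · omega
  · omega
  · have := k _ e; omega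
  · have := k _ e; omega
  · have := k _ e; omega
  · have := k _ (e.trans h3.symm); omega

theorem stage1 (h : Tri H s β) (P κ : ℕ → ℝ) (h1 : ∀ f < 6 * H, P f ≠ P (fl f))
    (h2 : ∀ f < 6 * H, P (sg s f) - P (sg s (fl f)) = κ (f / 6) * (P f - P (fl f)))
    (h3 : ∀ g < H, s g ≠ g → s g / 4 = g / 4 → κ g ≠ 1) : ∃ Q : ℕ → ℝ, ∀ f < 6 * H,
      Q (fl f) = Q f + (P f - P (fl f)) ∧ Q (sg s f) = κ (f / 6) * Q f ∧ Q f ≠ 0 ∧ ∀ f' < 6 * H,
        (f ≠ f' → f / 24 = f' / 24 → Q f ≠ Q f') ∧ (f / 6 = f' / 6 → f / 2 ≠ f' / 2 → Q f + P f ≠ Q f' + P f') := by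
  let a : ℕ → ℝ := fun f => P (2 * (f / 2)) - P (fl (2 * (f / 2)))
  let b : ℕ → ℝ := fun f => if f % 2 = 0 then 0 else a f
  let zi : ℕ → ℕ := fun f => 3 * min (f / 6) (s (f / 6)) + f % 6 / 2
  have a0 : ∀ f < 6 * H, a f ≠ 0 := fun f hf => sub_ne_zero.2 (h1 _ (by omega))
  have a1 : ∀ f, a (fl f) = a f := fun f => by simp only [a, (fl_div f).1]
  have a2 : ∀ f < 6 * H, a (sg s f) = κ (f / 6) * a f := fun f hf => by
    have := h2 (2 * (f / 2)) (by omega)
    rw [show 2 * (f / 2) / 6 = f / 6 by omega, sg_fl, show sg s (2 * (f / 2)) = 2 * (sg s f / 2) by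
      unfold sg; rw [show 2 * (f / 2) / 6 = f / 6 by omega]; omega] at this
    exact this
  obtain ⟨T, hT⟩ := (ev_all (n := 6 * H) (p := fun f T => a f * T ^ (zi f + 1) + b f ≠ 0 * T ^ (zi f + 1) + 0 ∧
      ∀ f' < 6 * H, (f ≠ f' ∧ f / 24 = f' / 24 → a f * T ^ (zi f + 1) + b f ≠ a f' * T ^ (zi f' + 1) + b f') ∧
        (f / 6 = f' / 6 ∧ f / 2 ≠ f' / 2 → a f * T ^ (zi f + 1) + (b f + P f) ≠ a f' * T ^ (zi f' + 1) + (b f' + P f')))
      fun f hf => (ev _ _ _ _ _ _ (Or.inr ⟨rfl, Or.inl (a0 f hf)⟩)).and (ev_all fun f' hf' =>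
        (ev_imp fun ⟨c1, c2⟩ => ev _ _ _ _ _ _ (by
          by_cases e : zi f = zi f'
          · refine Or.inr ⟨e, ?_⟩
            simp only [zi] at e
            rcases h.mn (a := f / 6) (b := f' / 6) (by omega) (by omega) (by omega) with g | g
            · obtain rfl : f' = fl f := (half (by omega)).resolve_left (Ne.symm c1)
              refine Or.inr ?_
              have := a0 f hf
              have := fl_div f
              simp only [b, a1]
              split_ifs <;> first | omega | assumption | exact Ne.symm ‹_›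
            · by_cases g' : s (f / 6) = f / 6
              · obtain rfl : f' = fl f := (half (by omega)).resolve_left (Ne.symm c1)
                refine Or.inr ?_
                have := a0 f hf
                have := fl_div f
                simp only [b, a1]
                split_ifs <;> first | omega | assumption | exact Ne.symm ‹_›
              refine Or.inl fun q => h3 (f / 6) (by omega) g' (by omega) (mul_right_cancel₀ (a0 f hf) ?_)
              have := @sg_div s f
              rw [← a2 f hf, one_mul, q]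
              simp only [a, show sg s f / 2 = f' / 2 by omega]
          · exact Or.inl ⟨e, a0 f hf⟩)).and (ev_imp fun ⟨c1, c2⟩ => ev _ _ _ _ _ _ (Or.inl ⟨by
            simp only [zi, c1]; omega, a0 f hf⟩)))).exists
  refine ⟨fun f => a f * T ^ (zi f + 1) + b f, fun f hf => ⟨?_, ?_, by simpa using (hT f hf).1, fun f' hf' =>
    ⟨fun c1 c2 => ((hT f hf).2 f' hf').1 ⟨c1, c2⟩, fun c1 c2 e => ((hT f hf).2 f' hf').2 ⟨c1, c2⟩ (by linarith)⟩⟩⟩
  · have := fl_div f
    have z : zi (fl f) = zi f := by simp only [zi, this.2.2]; omega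
    simp only [z, a1, b]
    split_ifs with g1 g2 g2
    · omega
    · simp only [a, show 2 * (f / 2) = fl f by omega, fl_fl]; ring
    · simp only [a, show 2 * (f / 2) = f by omega]; ring
    · omega
  · have := @sg_div s f
    have z : zi (sg s f) = zi f := by simp only [zi, this.1, this.2, h.sinv (f / 6) (by omega), min_comm]
    simp only [z, a2 f hf, b, show sg s f % 2 = f % 2 by omega]
    split_ifs <;> ring

end Pool.Agent.H.MP_8aa36a_lc
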