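import Pool.Agent.H.MP_8aa36a_lc.C

namespace Pool.Agent.H.MP_8aa36a_lc

open Filter

variable {H : ℕ} {s β : ℕ → ℕ}

theorem fl_add (g j) : fl (6 * g + j) = 6 * g + fl j := by unfold fl; split_ifs <;> omega
theorem rot_add (g j) : rot (6 * g + j) = 6 * g + rot j := by unfold rot; split_ifs <;> omega

theorem six {f f' : ℕ} (e : f' / 6 = f / 6) : f' = f ∨ f' = rot f ∨ f' = fl f ∨ f' = rot (fl f) ∨ f' = fl (rot f) ∨
    f' = rot (fl (rot f)) := by
  have k : ∀ j < 6, ∀ j' < 6, j' = j ∨ j' = rot j ∨ j' = fl j ∨ j' = rot (fl j) ∨ j' = fl (rot j) ∨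
    j' = rot (fl (rot j)) := by decide
  have := k (f % 6) (by omega) (f' % 6) (by omega)
  obtain ⟨g, j, rfl, hj⟩ : ∃ g j, f = 6 * g + j ∧ j < 6 := ⟨f / 6, f % 6, by omega, by omega⟩
  simp only [fl_add, rot_add]
  rw [show (6 * g + j) % 6 = j by omega] at this
  omega

theorem stage2 (h : Tri H s β) (P κ Q : ℕ → ℝ) (h1 : ∀ f < 6 * H, P (rot f) = P f ∧ P f ≠ P (fl f))
    (h2 : ∀ f < 6 * H, P (sg s f) - P (sg s (fl f)) = κ (f / 6) * (P f - P (fl f)))
    (h3 : ∀ g < H, s g ≠ g → s g / 4 = g / 4 → κ g ≠ 1)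
    (h4 : ∀ f < 6 * H, P (β f) - P (fl (β f)) = P f - P (fl f))
    (hQ : ∀ f < 6 * H, Q (fl f) = Q f + (P f - P (fl f)) ∧ Q (sg s f) = κ (f / 6) * Q f ∧ Q f ≠ 0 ∧ ∀ f' < 6 * H,
        (f ≠ f' → f / 24 = f' / 24 → Q f ≠ Q f') ∧ (f / 6 = f' / 6 → f / 2 ≠ f' / 2 → Q f + P f ≠ Q f' + P f')) :
    ∃ Cn : ℕ → ℕ → ℝ, ∀ f < 6 * H, ∀ r < 4, Cn (fl f) r = Cn f r + (P f - P (fl f)) ∧
      Cn (if r % 2 = 0 then rot f else β f) r = Cn f r ∧
      (if r % 2 = 0 ∧ s (f / 6) ≠ f / 6 then Cn (sg s f) r = κ (f / 6) * Cn f r else Cn f ((r + 2) % 4) = Cn f r) ∧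
      Cn f r ≠ 0 ∧ Q f - Cn f r ≠ 0 ∧ ∀ f' < 6 * H, ∀ r' < 4, ¬(f = f' ∧ r = r') →
        (f / 24 = f' / 24 → r / 2 = r' / 2 → (4 * f' + r' ≠ nbr s β 0 (4 * f + r) → Q f - Cn f r ≠ Q f' - Cn f' r') ∧
          (4 * f' + r' ≠ nbr s β 1 (4 * f + r) → Cn f r ≠ Cn f' r')) ∧
        (4 * f' + r' ≠ nbr s β 3 (4 * f + r) → Cn f r * Q f' ≠ Cn f' r' * Q f) := by
  let qd : ℕ → ℕ := fun f => min (f / 2) (β f / 2)
  let cc : ℕ → ℕ → ℝ := fun f r => if r % 2 = 0 then P (6 * (f / 6)) - P (fl (6 * (f / 6))) else 1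
  let ci : ℕ → ℕ → ℕ := fun f r => if r % 2 = 0 then
    2 * (2 * min (f / 6) (s (f / 6)) + if s (f / 6) = f / 6 then 0 else r / 2) else 2 * qd f + 1
  let c0 : ℕ → ℕ → ℝ := fun f r => if r % 2 = 0 then P (6 * (f / 6)) - P f else
    if f = 2 * qd f ∨ β f = 2 * qd f then 0 else P (2 * qd f) - P (fl (2 * qd f))
  have lf : ∀ f < 6 * H, fl f < 6 * H := fun f hf => by have := fl_div f; omega
  have lr : ∀ f < 6 * H, rot f < 6 * H := fun f hf => by have := rot_div f; omega
  have ls : ∀ f < 6 * H, sg s f < 6 * H := fun f hf => by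
    have := @sg_div s f
    have := h.slt (f / 6) (by omega)
    omega
  have cc0 : ∀ f < 6 * H, ∀ r, cc f r ≠ 0 := fun f hf r => by
    simp only [cc]; split_ifs
    · exact sub_ne_zero.2 (h1 _ (by omega)).2
    · exact one_ne_zero
  have q1 : ∀ f < 6 * H, qd (fl f) = qd f := fun f hf => by simp only [qd, h.bfl f hf, (fl_div _).1]
  have q2 : ∀ f < 6 * H, qd (β f) = qd f := fun f hf => by simp only [qd, h.binv f hf, min_comm]
  have e1 : ∀ f < 6 * H, ∀ r, cc (fl f) r = cc f r ∧ ci (fl f) r = ci f r ∧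
      c0 (fl f) r = c0 f r + (P f - P (fl f)) := fun f hf r => by
    have a := fl_div f
    simp only [cc, ci, c0, a.2.2, q1 f hf, true_and, h.bfl f hf]
    have b := fl_div (β f)
    have b2 := h.bne f hf
    have b3 := h4 f hf
    have b4 : qd f = f / 2 ∨ qd f = β f / 2 := by simp only [qd]; omega
    split_ifs with g1 g2 g3 g3
    · ring
    · omega
    · rcases g2 with g | g
      · rw [← g, fl_fl]; ring
      · rw [← g, fl_fl]; linarith
    · rcases g3 with g | g
      · rw [← g]; ring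
      · rw [← g]; linarith
    · unfold fl at g2; split_ifs at g2 <;> omega
  have e2 : ∀ f < 6 * H, ∀ r, cc (if r % 2 = 0 then rot f else β f) r = cc f r ∧
      ci (if r % 2 = 0 then rot f else β f) r = ci f r ∧ c0 (if r % 2 = 0 then rot f else β f) r = c0 f r :=
    fun f hf r => by
      by_cases g : r % 2 = 0
      · simp only [cc, ci, c0, g, if_true, (rot_div f).1, (h1 f hf).1, and_self]
      · simp only [cc, ci, c0, g, if_false, q2 f hf, h.binv f hf, or_comm, and_self]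
  have sim : ∀ f < 6 * H, P (6 * s (f / 6)) - P (sg s f) = κ (f / 6) * (P (6 * (f / 6)) - P f) := fun f hf => by
    have r1 : ∀ f < 6 * H, P (sg s (rot f)) = P (sg s f) := fun f hf => by rw [sg_rot, (h1 _ (ls f hf)).1]
    have b : 6 * (f / 6) < 6 * H := by omega
    have b0 : sg s (6 * (f / 6)) = 6 * s (f / 6) := by unfold sg; rw [show 6 * (f / 6) / 6 = f / 6 by omega]; omega
    have b1 := h2 _ b
    have b2 := h2 _ (lr _ b)
    rw [(rot_div _).1, r1 _ b, (h1 _ b).1] at b2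
    rw [show 6 * (f / 6) / 6 = f / 6 by omega] at b1 b2
    rw [← b0]
    rcases six (f := 6 * (f / 6)) (f' := f) (by omega) with e | e | e | e | e | e <;> generalize f / 6 = g at * <;> subst e
    · simp
    · rw [r1 _ b, (h1 _ b).1]; simp
    · exact b1
    · rw [r1 _ (lf _ b), (h1 _ (lf _ b)).1]; exact b1
    · exact b2
    · rw [r1 _ (lf _ (lr _ b)), (h1 _ (lf _ (lr _ b))).1]; exact b2
  have e3 : ∀ f < 6 * H, ∀ r, r % 2 = 0 → cc (sg s f) r = κ (f / 6) * cc f r := fun f hf r g => by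
    have := h2 (6 * (f / 6)) (by omega)
    rw [sg_fl, show 6 * (f / 6) / 6 = f / 6 by omega, show sg s (6 * (f / 6)) = 6 * s (f / 6) by
      unfold sg; rw [show 6 * (f / 6) / 6 = f / 6 by omega]; omega] at this
    simpa only [cc, g, if_true, (sg_div f).1] using this
  have cs : ∀ f < 6 * H, ∀ r < 4, ∀ f' < 6 * H, ∀ r' < 4, ci f r = ci f' r' →
      (r % 2 = 0 ∧ r' % 2 = 0 ∧ f' / 6 = f / 6 ∧ (s (f / 6) ≠ f / 6 → r' = r)) ∨
      (r % 2 = 0 ∧ r' = r ∧ f' / 6 = s (f / 6) ∧ s (f / 6) ≠ f / 6) ∨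
      (r % 2 = 1 ∧ r' % 2 = 1 ∧ (f' = f ∨ f' = fl f ∨ f' = β f ∨ f' = β (fl f))) := fun f hf r hr f' hf' r' hr' e => by
    simp only [ci] at e
    by_cases g : r % 2 = 0 <;> by_cases g' : r' % 2 = 0 <;> simp only [g, g', if_true, if_false] at e
    · have a := h.mn (a := f / 6) (b := f' / 6) (by omega) (by omega) (by split_ifs at e <;> omega)
      have b := h.sinv (f / 6) (by omega)
      rcases a with a | a <;> rw [a] at e <;> split_ifs at e <;> omega
    · omega
    · omega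
    · exact Or.inr (Or.inr ⟨by omega, by omega, h.qd hf hf' (show qd f = qd f' by omega)⟩)
  have ccq : ∀ f f' r r', r % 2 = r' % 2 → (r % 2 = 0 → f' / 6 = f / 6) → cc f r = cc f' r' := fun f f' r r' a b => by
    simp only [cc, ← a]; split_ifs with g
    · rw [b g]
    · rfl
  have c0q : ∀ f r r', r % 2 = r' % 2 → c0 f r = c0 f r' := fun f r r' a => by simp only [c0, a]
  have h2' : ∀ f < 6 * H, ∀ f' r, r % 2 = 0 → f / 24 = f' / 24 → f' / 6 = s (f / 6) → s (f / 6) ≠ f / 6 →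
      cc f r ≠ cc f' r := fun f hf f' r a b c d e => by
    refine h3 (f / 6) (by omega) d (by omega) (mul_right_cancel₀ (cc0 f hf r) ?_)
    rw [← e3 f hf r a, one_mul, e]
    exact ccq _ _ _ _ rfl fun _ => by rw [(sg_div f).1, c]
  have bb : ∀ f < 6 * H, ∀ r, r % 2 = 1 → c0 (β f) r = c0 f r := fun f hf r a => by
    have := (e2 f hf r).2.2
    rwa [if_neg (by omega)] at this
  obtain ⟨T, hT⟩ := (ev_all (n := 6 * H) fun f hf => ev_all (n := 4) (p := fun r T =>
      (cc f r * T ^ (ci f r + 1) + c0 f r ≠ 0 * T ^ (ci f r + 1) + 0 ∧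
        cc f r * T ^ (ci f r + 1) + c0 f r ≠ 0 * T ^ (ci f r + 1) + Q f) ∧ ∀ f' < 6 * H, ∀ r' < 4, ¬(f = f' ∧ r = r') →
      (f / 24 = f' / 24 → r / 2 = r' / 2 → (4 * f' + r' ≠ nbr s β 0 (4 * f + r) →
          cc f r * T ^ (ci f r + 1) + (c0 f r - Q f) ≠ cc f' r' * T ^ (ci f' r' + 1) + (c0 f' r' - Q f')) ∧
        (4 * f' + r' ≠ nbr s β 1 (4 * f + r) →
          cc f r * T ^ (ci f r + 1) + c0 f r ≠ cc f' r' * T ^ (ci f' r' + 1) + c0 f' r')) ∧
      (4 * f' + r' ≠ nbr s β 3 (4 * f + r) → cc f r * Q f' * T ^ (ci f r + 1) + c0 f r * Q f' ≠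
        cc f' r' * Q f * T ^ (ci f' r' + 1) + c0 f' r' * Q f)) fun r hr =>
      ((ev _ _ _ _ _ _ (Or.inr ⟨rfl, Or.inl (cc0 f hf r)⟩)).and (ev _ _ _ _ _ _ (Or.inr ⟨rfl, Or.inl (cc0 f hf r)⟩))).and
      (ev_all fun f' hf' => ev_all fun r' hr' => ev_imp fun hn => (ev_imp fun c1 => ev_imp fun c2 =>
        (ev_imp fun c3 => ev _ _ _ _ _ _ (by
          by_cases e : ci f r = ci f' r'
          swap
          · exact Or.inl ⟨e, cc0 f hf r⟩
          refine Or.inr ⟨e, ?_⟩
          rw [nb0 f hr] at c3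
          rcases cs f hf r hr f' hf' r' hr' e with ⟨a, b, c, d⟩ | ⟨a, rfl, c, d⟩ | ⟨a, b, c⟩
          · obtain rfl : r = r' := by omega
            refine Or.inr fun q => ((hQ f hf).2.2.2 f' hf').2 c.symm (fun k => ?_) ?_
            · rcases half k.symm with k | k <;> omega
            · simp only [c0, a, if_true, c] at q; linarith
          · exact Or.inl (h2' f hf f' _ a c1 c d)
          · obtain rfl : r = r' := by omega
            have m1 := h.bne f hf
            have m2 := h.bne _ (lf f hf)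
            rcases c with c | c | rfl | rfl
            · omega
            · omega
            · refine Or.inr fun q => ((hQ f hf).2.2.2 _ hf').1 (by omega) c1 ?_
              rw [bb f hf r a] at q; linarith
            · refine Or.inr fun q => ((hQ _ (lf f hf)).2.2.2 _ hf').1 (by omega) (h.bg _ (lf f hf)).symm ?_
              rw [bb _ (lf f hf) r a, (e1 f hf r).2.2] at q
              rw [(hQ f hf).1]; linarith)).and (ev_imp fun c3 => ev _ _ _ _ _ _ (by
          by_cases e : ci f r = ci f' r'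
          swap
          · exact Or.inl ⟨e, cc0 f hf r⟩
          refine Or.inr ⟨e, ?_⟩
          rw [nb1 f hr] at c3
          rcases cs f hf r hr f' hf' r' hr' e with ⟨a, b, c, d⟩ | ⟨a, rfl, c, d⟩ | ⟨a, b, c⟩
          · obtain rfl : r = r' := by omega
            rw [if_pos a] at c3
            refine Or.inr fun q => ?_
            simp only [c0, a, if_true, c, sub_right_inj] at q
            have n1 := (h1 f hf).2
            have n2 := (h1 _ (lr f hf)).2
            rw [(h1 f hf).1] at n2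
            rcases six c with k | k | k | k | k | k
            · omega
            · omega
            · exact n1 (k ▸ q)
            · exact n1 (by rw [q, k, (h1 _ (lf f hf)).1])
            · exact n2 (k ▸ q)
            · exact n2 (by rw [q, k, (h1 _ (lf _ (lr f hf))).1])
          · exact Or.inl (h2' f hf f' _ a c1 c d)
          · obtain rfl : r = r' := by omega
            rw [if_neg (by omega)] at c3
            have n1 := (h1 f hf).2
            rcases c with c | rfl | c | rfl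
            · omega
            · refine Or.inr fun q => n1 ?_
              rw [(e1 f hf r).2.2] at q; linarith
            · omega
            · refine Or.inr fun q => n1 ?_
              rw [bb _ (lf f hf) r a, (e1 f hf r).2.2] at q; linarith))).and (ev_imp fun c3 => ev _ _ _ _ _ _ (by
          by_cases e : ci f r = ci f' r'
          swap
          · exact Or.inl ⟨e, mul_ne_zero (cc0 f hf r) (hQ f' hf').2.2.1⟩
          refine Or.inr ⟨e, Or.inl fun q => ?_⟩
          rw [nb3 f hr] at c3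
          rcases cs f hf r hr f' hf' r' hr' e with ⟨a, b, c, d⟩ | ⟨a, rfl, c, d⟩ | ⟨a, b, c⟩
          · rw [← ccq f f' r r' (by omega) fun _ => c] at q
            exact ((hQ f' hf').2.2.2 f hf).1 (by split_ifs at c3 <;> omega) (by omega) (mul_left_cancel₀ (cc0 f hf r) q)
          · rw [if_pos ⟨a, d⟩] at c3
            have m := @sg_div s f
            rw [← ccq (sg s f) f' r' r' rfl (fun _ => by omega), e3 f hf r' a] at q
            refine ((hQ f' hf').2.2.2 _ (ls f hf)).1 (by omega) (by omega) (mul_left_cancel₀ (cc0 f hf r') ?_)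
            rw [q, (hQ f hf).2.1]; ring
          · rw [if_neg (by omega)] at c3
            rw [← ccq f f' r r' (by omega) (by omega)] at q
            have m1 := h.bg f hf
            have m2 := h.bg _ (lf f hf)
            have m3 := fl_div f
            exact ((hQ f' hf').2.2.2 f hf).1 (by omega) (by omega) (mul_left_cancel₀ (cc0 f hf r) q))))).exists
  refine ⟨fun f r => cc f r * T ^ (ci f r + 1) + c0 f r, fun f hf r hr => ⟨?_, ?_, ?_, by simpa using (hT f hf r hr).1.1,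
    fun e => (hT f hf r hr).1.2 (by linarith), fun f' hf' r' hr' hn => ⟨fun c1 c2 => ⟨fun c3 e =>
      (((hT f hf r hr).2 f' hf' r' hr' hn).1 c1 c2).1 c3 (by linarith), (((hT f hf r hr).2 f' hf' r' hr' hn).1 c1 c2).2⟩,
      fun c3 e => ((hT f hf r hr).2 f' hf' r' hr' hn).2 c3 (by linarith)⟩⟩⟩
  · obtain ⟨a, b, c⟩ := e1 f hf r
    simp only [a, b, c]; ring
  · obtain ⟨a, b, c⟩ := e2 f hf r
    simp only [a, b, c]
  · split_ifs with g
    · have b := h.sinv (f / 6) (by omega)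
      have z : ci (sg s f) r = ci f r := by
        simp only [ci, g.1, if_true, (sg_div f).1, b, min_comm, if_neg g.2, if_neg g.2.symm]
      have z0 : c0 (sg s f) r = κ (f / 6) * c0 f r := by simp only [c0, g.1, if_true, (sg_div f).1, sim f hf]
      simp only [z, z0, e3 f hf r g.1]; ring
    · have z : ci f ((r + 2) % 4) = ci f r := by
        simp only [ci, show (r + 2) % 4 % 2 = r % 2 by omega]
        split_ifs <;> omega
      beta_reduce
      rw [z, ccq f f ((r + 2) % 4) r (by omega) (fun _ => rfl), c0q f ((r + 2) % 4) r (by omega)]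

theorem tri_complete (h : Tri H s β) (P : ℕ → ℝ) (h1 : ∀ f < 6 * H, P (rot f) = P f ∧ P f ≠ P (fl f))
    (h2 : ∀ g < H, ∃ κ, (∀ f, f / 6 = g → P (sg s f) - P (sg s (fl f)) = κ * (P f - P (fl f))) ∧
      (s g ≠ g → s g / 4 = g / 4 → κ ≠ 1))
    (h4 : ∀ f < 6 * H, P (β f) - P (fl (β f)) = P f - P (fl f)) : Co' (24 * H) (nbr s β) := by
  choose! κ h2 h3 using h2
  have h2' : ∀ f < 6 * H, P (sg s f) - P (sg s (fl f)) = κ (f / 6) * (P f - P (fl f)) := fun f hf =>
    h2 (f / 6) (by omega) f rfl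
  obtain ⟨Q, hQ⟩ := stage1 h P κ (fun f hf => (h1 f hf).2) h2' h3
  obtain ⟨Cn, hC⟩ := stage2 h P κ Q h1 h2' h3 h4 hQ
  let mi : ℕ → ℕ → ℕ := fun f r => 2 * (f / 24) + r / 2
  obtain ⟨T, T0, hT⟩ := ((ev 0 0 1 0 0 0 (Or.inr ⟨rfl, Or.inl one_ne_zero⟩)).and (ev_all (n := 6 * H) fun f hf =>
    ev_all (n := 4) (p := fun r T => ∀ f' < 6 * H, ∀ r' < 4, mi f r ≠ mi f' r' →
      ((Q f - Cn f r) * T ^ (mi f r + 1) + 0 ≠ (Q f' - Cn f' r') * T ^ (mi f' r' + 1) + 0 ∧
        Cn f r * T ^ (mi f r + 1) + 0 ≠ Cn f' r' * T ^ (mi f' r' + 1) + 0) ∧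
        Q f * T ^ (mi f r + 1) + 0 ≠ Q f' * T ^ (mi f' r' + 1) + 0) fun r hr =>
      ev_all fun f' _ => ev_all fun r' _ => ev_imp fun c =>
        ((ev _ _ _ _ _ _ (Or.inl ⟨c, (hC f hf r hr).2.2.2.2.1⟩)).and
          (ev _ _ _ _ _ _ (Or.inl ⟨c, (hC f hf r hr).2.2.2.1⟩))).and
          (ev _ _ _ _ _ _ (Or.inl ⟨c, (hQ f hf).2.2.1⟩)))).exists
  have T1 : ∀ k, T ^ k ≠ 0 := fun k => pow_ne_zero k (by simpa using T0)
  let x : ℕ → ℝ := fun v => -(Cn (v / 4) (v % 4) * T ^ (mi (v / 4) (v % 4) + 1))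
  let y : ℕ → ℝ := fun v => (Q (v / 4) - Cn (v / 4) (v % 4)) * T ^ (mi (v / 4) (v % 4) + 1)
  have ex : ∀ f, ∀ r < 4, x (4 * f + r) = -(Cn f r * T ^ (mi f r + 1)) := fun f r hr => by
    simp only [x, show (4 * f + r) / 4 = f by omega, show (4 * f + r) % 4 = r by omega]
  have ey : ∀ f, ∀ r < 4, y (4 * f + r) = (Q f - Cn f r) * T ^ (mi f r + 1) := fun f r hr => by
    simp only [y, show (4 * f + r) / 4 = f by omega, show (4 * f + r) % 4 = r by omega]
  refine ⟨x, y, fun v hv => ?_, fun u hu v hv hn => ?_⟩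
  · obtain ⟨f, r, hf, hr, rfl⟩ := vform hv
    obtain ⟨c1, c2, c3, c4, c5, -⟩ := hC f hf r hr
    obtain ⟨q1, q2, q3, -⟩ := hQ f hf
    have a1 := fl_div f
    have a2 := rot_div f
    have a3 := fl_div r
    have a4 := h.bg f hf
    refine ⟨?_, ?_, ?_, ?_, ?_, ?_, ?_⟩
    · rw [nb0 f hr, ey _ _ hr, ey _ _ hr, c1, q1, show mi (fl f) r = mi f r by simp only [mi]; omega]; ring
    · rw [nb1 f hr, ex _ _ hr, ex _ _ hr, c2, show mi (if r % 2 = 0 then rot f else β f) r = mi f r by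
        simp only [mi]; split_ifs <;> omega]
    · rw [nb2, ex _ _ hr, ey _ _ hr, ex _ _ (by omega), ey _ _ (by omega),
        show mi f (fl r) = mi f r by simp only [mi]; omega]; ring
    · rw [nb3 f hr]
      split_ifs at c3 ⊢
      · rw [ex _ _ hr, ey _ _ hr, ex _ _ hr, ey _ _ hr, c3, q2]; ring
      · rw [ex _ _ hr, ey _ _ hr, ex _ _ (by omega), ey _ _ (by omega), c3]; ring
    · rw [ex _ _ hr]; exact neg_ne_zero.2 (mul_ne_zero c4 (T1 _))
    · rw [ey _ _ hr]; exact mul_ne_zero c5 (T1 _)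
    · rw [ex _ _ hr, ey _ _ hr]
      exact fun e => mul_ne_zero q3 (T1 (mi f r + 1)) (by linarith)
  · obtain ⟨f, r, hf, hr, rfl⟩ := vform hu
    obtain ⟨f', r', hf', hr', rfl⟩ := vform hv
    obtain ⟨d1, d2⟩ := (hC f hf r hr).2.2.2.2.2 f' hf' r' hr' (by omega)
    rw [ex _ _ hr, ey _ _ hr, ex _ _ hr', ey _ _ hr']
    have dd : 4 * f' + r' ≠ nbr s β 3 (4 * f + r) → -(Cn f r * T ^ (mi f r + 1)) * ((Q f' - Cn f' r') * T ^ (mi f' r' + 1)) ≠
        -(Cn f' r' * T ^ (mi f' r' + 1)) * ((Q f - Cn f r) * T ^ (mi f r + 1)) := fun c e =>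
      d2 c (mul_right_cancel₀ (mul_ne_zero (T1 (mi f r + 1)) (T1 (mi f' r' + 1))) (by linarith))
    by_cases m : mi f r = mi f' r'
    · obtain ⟨d3, d4⟩ := d1 (by simp only [mi] at m; omega) (by simp only [mi] at m; omega)
      refine ⟨fun c e => d3 c ?_, fun c e => d4 c ?_, fun c e => ?_, dd⟩
      · exact mul_right_cancel₀ (T1 _) (m ▸ e)
      · exact mul_right_cancel₀ (T1 _) (m ▸ neg_injective e)
      · rw [nb2] at c
        simp only [mi] at m
        refine ((hQ f hf).2.2.2 f' hf').1 (fun k => ?_) (by omega) (mul_right_cancel₀ (T1 (mi f r + 1)) ?_)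
        · rcases half (show r' / 2 = r / 2 by omega) with k | k <;> omega
        · rw [show mi f' r' = mi f r from m.symm] at e; linarith
    · obtain ⟨⟨t1, t2⟩, t3⟩ := hT f hf r hr f' hf' r' hr' m
      exact ⟨fun _ e => t1 (by linarith), fun _ e => t2 (by linarith), fun _ e => t3 (by linarith), dd⟩

end Pool.Agent.H.MP_8aa36a_lc
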