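import Pool.Agent.H.MP_8aa36a_lc.D
import Pool.Agent.Lib.helper22.CXEtrD

namespace Pool.Agent.H.MP_8aa36a_lc

open Pool.Agent.Lib.ER

set_option synthInstance.maxSize 4000

def ty (m g : ℕ) : ℕ := if g = 0 then 0 else if g < 1 + 4 * m then (if g % 4 = 1 then 1 else 2) else 3
def tb (t j : ℕ) : ℕ :=
  (if t = 0 then [2, 3, 0, 1, 11, 10, 8, 9, 6, 7, 5, 4, 14, 15, 12, 13, 23, 22, 20, 21, 18, 19, 17, 16]
  else if t = 1 then [6, 7, 18, 19, 12, 13, 0, 1, 23, 22, 15, 14, 4, 5, 11, 10, 21, 20, 2, 3, 17, 16, 9, 8]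
  else if t = 2 then [6, 7, 18, 19, 13, 12, 0, 1, 23, 22, 16, 17, 5, 4, 20, 21, 10, 11, 2, 3, 14, 15, 9, 8]
  else [6, 7, 14, 15, 22, 23, 0, 1, 20, 21, 16, 17, 18, 19, 2, 3, 10, 11, 12, 13, 8, 9, 4, 5]).getD j 0
def pt (t j : ℕ) : ℕ :=
  (if t = 0 then [0, 1, 1, 2, 2, 0, 2, 1, 1, 0, 0, 2, 0, 1, 1, 2, 2, 0, 2, 1, 1, 0, 0, 2]
  else if t = 1 then [0, 1, 1, 2, 2, 0, 0, 1, 1, 3, 3, 0, 2, 0, 0, 3, 3, 2, 1, 2, 2, 3, 3, 1]
  else if t = 2 then [0, 1, 1, 2, 2, 0, 0, 1, 1, 3, 3, 0, 0, 2, 2, 3, 3, 0, 1, 2, 2, 3, 3, 1]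
  else [0, 1, 1, 2, 2, 0, 0, 1, 1, 2, 2, 0, 0, 1, 1, 2, 2, 0, 0, 1, 1, 2, 2, 0]).getD j 0
def be (m f : ℕ) : ℕ := 24 * (f / 24) + tb (ty m (f / 24)) (f % 24)

def isv (j : ℕ) : Prop := j % 16 = 0 ∨ j % 16 = 1 ∨ j % 16 = 4 ∨ j % 16 = 8 ∨ j % 16 = 10 ∨ j % 16 = 12
instance (j) : Decidable (isv j) := by unfold isv; infer_instance
def eq (E : List Q4) (k : ℕ) : Q4 := E.getD k (0, 0, 0, 0)
def uv (E : List Q4) (j : ℕ) : ℕ :=
  if j % 16 = 12 then 0 else if j % 16 = 10 then (eq E (j / 16)).2.1 else if j % 16 = 8 then (eq E (j / 16)).1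
  else if j % 16 = 1 then (eq E (j / 16)).2.2.1 else (eq E (j / 16)).2.2.2
def s1 (E : List Q4) (j : ℕ) : ℕ :=
  if isv j then 4 + 16 * E.length + 4 * (uv E j * (16 * E.length) + j) + 2
  else if j % 16 = 2 ∨ j % 16 = 9 then j + 8 else if j % 16 = 6 ∨ j % 16 = 13 then j else if j % 16 = 5 then j + 13
  else if j % 16 = 14 then j - 5 else j + 4
def s2 (M : ℕ) (E : List Q4) (r p : ℕ) : ℕ :=
  if p = 0 ∧ 0 < r ∧ (r - 1) / (16 * E.length) = r / (16 * E.length) then 4 + 16 * E.length + 4 * (r - 1) + 1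
  else if p = 1 ∧ r + 1 < M * (16 * E.length) ∧ (r + 1) / (16 * E.length) = r / (16 * E.length) then
    4 + 16 * E.length + 4 * (r + 1)
  else if p = 2 ∧ isv (r % (16 * E.length)) ∧ uv E (r % (16 * E.length)) = r / (16 * E.length) then
    4 + r % (16 * E.length)
  else 4 + 16 * E.length + 4 * r + p
def sm (M : ℕ) (E : List Q4) (h : ℕ) : ℕ :=
  if h < 4 then fl h else if h < 4 + 16 * E.length then s1 E (h - 4)
  else s2 M E ((h - (4 + 16 * E.length)) / 4) ((h - (4 + 16 * E.length)) % 4)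
def HH (M : ℕ) (E : List Q4) : ℕ := 4 + 16 * E.length + 4 * (M * (16 * E.length))

variable {M : ℕ} {E : List Q4}

theorem sm1 {j} (hj : j < 16 * E.length) : sm M E (4 + j) = s1 E j := by
  simp only [sm, if_neg (show ¬4 + j < 4 by omega), if_pos (show 4 + j < 4 + 16 * E.length by omega),
    Nat.add_sub_cancel_left]
theorem sm2 (r) {p} (hp : p < 4) : sm M E (4 + 16 * E.length + 4 * r + p) = s2 M E r p := by
  simp only [sm, if_neg (show ¬4 + 16 * E.length + 4 * r + p < 4 by omega),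
    if_neg (show ¬4 + 16 * E.length + 4 * r + p < 4 + 16 * E.length by omega)]
  congr 1 <;> omega

theorem hform {h} (hh : h < HH M E) : h < 4 ∨ (∃ j < 16 * E.length, h = 4 + j) ∨
    ∃ r < M * (16 * E.length), ∃ p < 4, h = 4 + 16 * E.length + 4 * r + p := by
  unfold HH at hh
  by_cases a : h < 4
  · exact Or.inl a
  by_cases b : h < 4 + 16 * E.length
  · exact Or.inr (Or.inl ⟨h - 4, by omega, by omega⟩)
  · exact Or.inr (Or.inr ⟨(h - (4 + 16 * E.length)) / 4, by omega, (h - (4 + 16 * E.length)) % 4, by omega, by omega⟩)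

theorem eq_mem {k} (hk : k < E.length) : eq E k ∈ E := by simp [eq, hk]

theorem uv_lt (h0 : 0 < M) (hE : ∀ e ∈ E, Q4.lt M e) {j} (hj : j < 16 * E.length) : uv E j < M := by
  have := hE _ (eq_mem (k := j / 16) (by omega))
  unfold Q4.lt at this
  unfold uv; split_ifs <;> omega

theorem slot {N i j : ℕ} (hi : i < M) (hj : j < N) : i * N + j < M * N ∧ (i * N + j) / N = i ∧ (i * N + j) % N = j := by
  refine ⟨by nlinarith, ?_, ?_⟩
  · rw [add_comm, Nat.add_mul_div_right _ _ (by omega), Nat.div_eq_of_lt hj, zero_add]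
  · rw [add_comm, Nat.add_mul_mod_self_right, Nat.mod_eq_of_lt hj]

theorem tb_ok : ∀ t < 4, ∀ j < 24, tb t j < 24 ∧ tb t (tb t j) = j ∧ tb t j / 2 ≠ j / 2 ∧ tb t (fl j) = fl (tb t j) ∧
    fl j < 24 ∧ rot j < 24 ∧ pt t (rot j) = pt t j ∧ pt t j ≠ pt t (fl j) ∧ pt t j < 4 ∧ (t = 3 → pt t j < 3) ∧
    (t ≠ 0 → pt t (tb t j) = pt t j) ∧ pt 0 (tb 0 j) + pt 0 (fl j) = pt 0 j + pt 0 (fl (tb 0 j)) := by decide +kernel

theorem ty_lt (m g) : ty m g < 4 := by unfold ty; split_ifs <;> omega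
theorem fl24 (g j) : fl (24 * g + j) = 24 * g + fl j := by unfold fl; split_ifs <;> omega
theorem rot24 (g j) : rot (24 * g + j) = 24 * g + rot j := by unfold rot; split_ifs <;> omega
theorem be24 (m g) {j} (hj : j < 24) : be m (24 * g + j) = 24 * g + tb (ty m g) j := by
  simp only [be, show (24 * g + j) / 24 = g by omega, show (24 * g + j) % 24 = j by omega]

theorem fform {f} (hf : f < 6 * HH M E) : ∃ g j, 4 * g + 4 ≤ HH M E ∧ j < 24 ∧ f = 24 * g + j :=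
  ⟨f / 24, f % 24, by unfold HH at *; omega, by omega, by omega⟩

theorem sm_ok (h0 : 0 < M) (hE : ∀ e ∈ E, Q4.lt M e) {h} (hh : h < HH M E) : sm M E h < HH M E ∧ sm M E (sm M E h) = h ∧
    (sm M E h ≠ h → sm M E h / 4 = h / 4 → h < 4) := by
  rcases hform hh with a | ⟨j, hj, rfl⟩ | ⟨r, hr, p, hp, rfl⟩
  · have := fl_div h
    have e : sm M E h = fl h := if_pos a
    have e' : sm M E (fl h) = fl (fl h) := if_pos (by omega)
    rw [e, e', fl_fl]
    unfold HH; omega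
  · rw [sm1 hj]
    unfold s1 HH
    split_ifs with g g1 g2 g3 g4
    · obtain ⟨a, b, c⟩ := slot (uv_lt h0 hE hj) hj
      rw [sm2 _ (by omega)]
      simp only [s2, b, c, g]
      simp; omega
    · rw [show j + 8 = 4 + (j + 4) by omega, sm1 (by omega)]
      unfold s1 isv; split_ifs <;> omega
    · rw [show j = 4 + (j - 4) by omega, sm1 (by omega)]
      unfold s1 isv; split_ifs <;> omega
    · rw [show j + 13 = 4 + (j + 9) by omega, sm1 (by omega)]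
      unfold s1 isv; split_ifs <;> omega
    · rw [show j - 5 = 4 + (j - 9) by omega, sm1 (by omega)]
      unfold s1 isv; split_ifs <;> omega
    · rw [show j + 4 = 4 + j by omega, sm1 (by omega)]
      unfold s1; split_ifs <;> omega
  · rw [sm2 _ hp]
    unfold s2 HH
    split_ifs with g1 g2 g3
    · rw [sm2 _ (by omega)]
      simp only [s2, show r - 1 + 1 = r by omega, g1.2.2, hr]
      simp; omega
    · rw [← add_zero (4 + 16 * E.length + 4 * (r + 1)), sm2 _ (by omega)]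
      simp only [s2, Nat.add_sub_cancel, g2.2.2]
      simp; omega
    · have hN : 0 < 16 * E.length := Nat.pos_of_ne_zero fun e => by simp [e] at hr
      have := Nat.mod_lt r hN
      rw [sm1 this]
      simp only [s1, g3.2.1, g3.2.2, if_true, Nat.div_add_mod']
      omega
    · refine ⟨by omega, ?_, fun k => absurd rfl k⟩
      rw [sm2 _ hp]
      simp only [s2, if_neg g1, if_neg g2, if_neg g3]

theorem tri_ok (h0 : 0 < M) (hE : ∀ e ∈ E, Q4.lt M e) : Tri (HH M E) (sm M E) (be E.length) := by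
  refine ⟨fun h hh => (sm_ok h0 hE hh).1, fun h hh => (sm_ok h0 hE hh).2.1, ?_, ?_, ?_, ?_, ?_⟩ <;> intro f hf <;>
    obtain ⟨g, j, hg, hj, rfl⟩ := fform hf <;> obtain ⟨a1, a2, a3, a4, a5, -⟩ := tb_ok _ (ty_lt E.length g) j hj <;>
    rw [be24 _ _ hj]
  · omega
  · rw [be24 _ _ a1, a2]
  · omega
  · rw [fl24, fl24, be24 _ _ a5, a4]
  · omega

noncomputable def rho (P : ℕ → ℝ) (h : ℕ) : ℝ := (P (6 * h + 3) - P (6 * h)) / (P (6 * h + 1) - P (6 * h))

theorem hexa {P : ℕ → ℝ} {H g : ℕ} (h1 : ∀ f < 6 * H, P (rot f) = P f ∧ P f ≠ P (fl f)) (hg : g < H) :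
    P (6 * g + 2) = P (6 * g + 1) ∧ P (6 * g + 4) = P (6 * g + 3) ∧ P (6 * g + 5) = P (6 * g) ∧
      P (6 * g + 1) - P (6 * g) ≠ 0 ∧ P (6 * g + 3) - P (6 * g) ≠ 0 := by
  have a0 := h1 (6 * g + 0) (by omega)
  have a1 := h1 (6 * g + 1) (by omega)
  have a3 := h1 (6 * g + 3) (by omega)
  have a4 := h1 (6 * g + 4) (by omega)
  rw [rot_add, fl_add] at a0 a1 a3 a4
  refine ⟨a1.1, a3.1, a0.1, sub_ne_zero.2 a0.2.symm, sub_ne_zero.2 ?_⟩
  rw [← a3.1, ← add_zero (6 * g), ← a0.1]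
  exact a4.2

theorem sg_add (s : ℕ → ℕ) (g) {j} (hj : j < 6) : sg s (6 * g + j) = 6 * s g + j := by
  simp only [sg, show (6 * g + j) / 6 = g by omega, show (6 * g + j) % 6 = j by omega]

theorem rho_of {P : ℕ → ℝ} {H g : ℕ} {s : ℕ → ℕ} {κ : ℝ} (h1 : ∀ f < 6 * H, P (rot f) = P f ∧ P f ≠ P (fl f)) (hg : g < H)
    (hs : s g < H) (h : ∀ f, f / 6 = g → P (sg s f) - P (sg s (fl f)) = κ * (P f - P (fl f))) : rho P (s g) = rho P g := by
  obtain ⟨-, a2, a3, a4, -⟩ := hexa h1 hg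
  obtain ⟨-, b2, b3, b4, -⟩ := hexa h1 hs
  have c1 := h (6 * g + 1) (by omega)
  have c4 := h (6 * g + 4) (by omega)
  rw [fl_add, sg_add _ _ (by omega), sg_add _ _ (by decide)] at c1 c4
  change P (6 * s g + 1) - P (6 * s g) = κ * (P (6 * g + 1) - P (6 * g)) at c1
  change P (6 * s g + 4) - P (6 * s g + 5) = κ * (P (6 * g + 4) - P (6 * g + 5)) at c4
  rw [a2, a3, b2, b3] at c4
  unfold rho
  rw [div_eq_div_iff b4 a4, c1, c4]; ring

theorem of_rho {P : ℕ → ℝ} {H g : ℕ} {s : ℕ → ℕ} (h1 : ∀ f < 6 * H, P (rot f) = P f ∧ P f ≠ P (fl f)) (hg : g < H)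
    (hs : s g < H) (h : rho P (s g) = rho P g) : ∃ κ, (∀ f, f / 6 = g → P (sg s f) - P (sg s (fl f)) = κ * (P f - P (fl f))) ∧
      P (6 * s g + 1) - P (6 * s g) = κ * (P (6 * g + 1) - P (6 * g)) := by
  obtain ⟨a1, a2, a3, a4, -⟩ := hexa h1 hg
  obtain ⟨b1, b2, b3, b4, -⟩ := hexa h1 hs
  unfold rho at h
  rw [div_eq_div_iff b4 a4] at h
  have c1 : P (6 * s g + 1) - P (6 * s g) = (P (6 * s g + 1) - P (6 * s g)) / (P (6 * g + 1) - P (6 * g)) *
    (P (6 * g + 1) - P (6 * g)) := (div_mul_cancel₀ _ a4).symm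
  have c2 : P (6 * s g + 3) - P (6 * s g) = (P (6 * s g + 1) - P (6 * s g)) / (P (6 * g + 1) - P (6 * g)) *
    (P (6 * g + 3) - P (6 * g)) := by field_simp; linear_combination h
  refine ⟨_, fun f hf => ?_, c1⟩
  generalize (P (6 * s g + 1) - P (6 * s g)) / (P (6 * g + 1) - P (6 * g)) = κ at *
  obtain ⟨j, hj, rfl⟩ : ∃ j < 6, f = 6 * g + j := ⟨f % 6, by omega, by omega⟩
  rw [fl_add, sg_add _ _ hj, sg_add _ _ (by have := fl_div j; omega)]
  interval_cases j <;> simp only [fl] <;> norm_num [a1, a2, a3, b1, b2, b3] <;> linarith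

end Pool.Agent.H.MP_8aa36a_lc
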