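import Pool.Agent.H.MP_8aa36a_lc.E

namespace Pool.Agent.H.MP_8aa36a_lc

open Pool.Agent.Lib.ER Pool.Agent.Lib.CX

set_option synthInstance.maxSize 4000

variable {M : ℕ} {E : List Q4}

theorem ty_eq (m k) (hk : k < m) : ty m (1 + 4 * k) = 1 ∧ ty m (1 + 4 * k + 1) = 2 ∧ ty m (1 + 4 * k + 2) = 2 ∧
    ty m (1 + 4 * k + 3) = 2 := by
  unfold ty; refine ⟨?_, ?_, ?_, ?_⟩ <;> split_ifs <;> omega
theorem ty_3 (m r) : ty m (1 + 4 * m + r) = 3 := by unfold ty; split_ifs <;> omega

theorem gad {P : ℕ → ℝ} {H m g : ℕ} (h1 : ∀ f < 6 * H, P (rot f) = P f ∧ P f ≠ P (fl f)) (hg : 4 * g + 4 ≤ H)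
    (h : ∀ f < 6 * H, P (be m f) - P (fl (be m f)) = P f - P (fl f)) :
    (ty m g = 1 → rho P (4 * g + 2) * rho P (4 * g) = rho P (4 * g) - rho P (4 * g + 1)) ∧
    (ty m g = 2 → rho P (4 * g + 1) = rho P (4 * g) * rho P (4 * g + 2)) ∧
    (ty m g = 3 → rho P (4 * g + 1) = rho P (4 * g) ∧ rho P (4 * g + 2) = rho P (4 * g)) := by
  have k : ∀ j < 24, P (24 * g + tb (ty m g) j) - P (24 * g + fl (tb (ty m g) j)) = P (24 * g + j) - P (24 * g + fl j) :=
    fun j hj => by
      have := h (24 * g + j) (by omega)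
      rwa [be24 _ _ hj, fl24, fl24] at this
  obtain ⟨a1, a2, a3, a4, a5⟩ := hexa (g := 4 * g) h1 (by omega)
  obtain ⟨b1, b2, b3, b4, b5⟩ := hexa (g := 4 * g + 1) h1 (by omega)
  obtain ⟨c1, c2, c3, c4, c5⟩ := hexa (g := 4 * g + 2) h1 (by omega)
  obtain ⟨d1, d2, d3, d4, d5⟩ := hexa (g := 4 * g + 3) h1 (by omega)
  have k0 := k 0 (by omega)
  have k2 := k 2 (by omega)
  have k4 := k 4 (by omega)
  have k8 := k 8 (by omega)
  have k10 := k 10 (by omega)
  have k12 := k 12 (by omega)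
  unfold rho
  simp only [show ∀ j, 6 * (4 * g + j) = 24 * g + 6 * j from fun j => by ring, show 6 * (4 * g) = 24 * g by ring,
    add_assoc, Nat.reduceMul, Nat.reduceAdd] at *
  refine ⟨fun t => ?_, fun t => ?_, fun t => ?_⟩ <;> rw [t] at k0 k2 k4 k8 k10 k12 <;>
    simp [tb, fl] at k0 k2 k4 k8 k10 k12
  · rw [show P (24 * g + 7) - P (24 * g + 6) = P (24 * g + 1) - P (24 * g) by linarith,
      show P (24 * g + 15) - P (24 * g + 12) = P (24 * g + 9) - P (24 * g + 6) - (P (24 * g + 3) - P (24 * g)) by linarith,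
      show P (24 * g + 13) - P (24 * g + 12) = -(P (24 * g + 3) - P (24 * g)) by linarith]
    field_simp; ring
  · rw [show P (24 * g + 7) - P (24 * g + 6) = P (24 * g + 1) - P (24 * g) by linarith,
      show P (24 * g + 15) - P (24 * g + 12) = P (24 * g + 9) - P (24 * g + 6) by linarith,
      show P (24 * g + 13) - P (24 * g + 12) = P (24 * g + 3) - P (24 * g) by linarith]
    field_simp
  · rw [show P (24 * g + 7) - P (24 * g + 6) = P (24 * g + 1) - P (24 * g) by linarith,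
      show P (24 * g + 9) - P (24 * g + 6) = P (24 * g + 3) - P (24 * g) by linarith,
      show P (24 * g + 15) - P (24 * g + 12) = P (24 * g + 3) - P (24 * g) by linarith,
      show P (24 * g + 13) - P (24 * g + 12) = P (24 * g + 1) - P (24 * g) by linarith]
    exact ⟨rfl, rfl⟩

theorem sound (h0 : 0 < M) (hE : ∀ e ∈ E, Q4.lt M e) (hc : Co (24 * HH M E) (nbr (sm M E) (be E.length))) :
    ∃ x : ℕ → ℝ, x 0 ≠ 0 ∧ ∀ e ∈ E, Q4.ok x e := by
  obtain ⟨P, h1, h2, h3 | h3⟩ := tri_sound (tri_ok h0 hE) hc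
  · have rs : ∀ g < HH M E, rho P (sm M E g) = rho P g := fun g hg =>
      let ⟨_, k⟩ := h2 g hg; rho_of h1 hg (sm_ok h0 hE hg).1 k
    have r0 : ∀ g < HH M E, rho P g ≠ 0 := fun g hg => div_ne_zero (hexa h1 hg).2.2.2.2 (hexa h1 hg).2.2.2.1
    let val : ℕ → ℝ := fun i => rho P (4 + 16 * E.length + 4 * (i * (16 * E.length)))
    have g3 : ∀ r < M * (16 * E.length), rho P (4 + 16 * E.length + 4 * r + 1) = rho P (4 + 16 * E.length + 4 * r) ∧
        rho P (4 + 16 * E.length + 4 * r + 2) = rho P (4 + 16 * E.length + 4 * r) := fun r hr => by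
      have := (gad (g := 1 + 4 * E.length + r) h1 (by unfold HH; omega) h3).2.2 (ty_3 _ _)
      rwa [show 4 * (1 + 4 * E.length + r) = 4 + 16 * E.length + 4 * r by ring] at this
    have ch : ∀ i < M, ∀ j < 16 * E.length, rho P (4 + 16 * E.length + 4 * (i * (16 * E.length) + j)) = val i := by
      intro i hi j
      induction j with
      | zero => exact fun _ => rfl
      | succ j ih =>
        intro hj
        obtain ⟨a1, a2, -⟩ := slot hi (show j < 16 * E.length by omega)
        obtain ⟨b1, b2, -⟩ := slot hi hj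
        rw [← ih (by omega), ← (g3 _ a1).1, ← rs (4 + 16 * E.length + 4 * (i * (16 * E.length) + j) + 1)
          (by unfold HH; omega), sm2 _ (by omega)]
        simp only [s2, add_assoc (i * (16 * E.length)), a2, b1, b2]
        simp
    have us : ∀ j < 16 * E.length, isv j → rho P (4 + j) = val (uv E j) := fun j hj hv => by
      have a := uv_lt h0 hE hj
      rw [← rs _ (by unfold HH; omega), sm1 hj, s1, if_pos hv, (g3 _ (slot a hj).1).2, ch _ a j hj]
    by_cases z : E.length = 0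
    · exact ⟨fun _ => 1, one_ne_zero, by simp [List.length_eq_zero_iff.1 z]⟩
    have v0 : val 0 ≠ 0 := r0 _ (by unfold HH; nlinarith [Nat.pos_of_ne_zero z])
    refine ⟨fun i => val i / val 0, by simpa using v0, fun e he => ?_⟩
    obtain ⟨k, hk, rfl⟩ := List.getElem_of_mem he
    rw [show E[k] = eq E k by simp [eq, hk]]
    obtain ⟨t1, t2, t3, t4⟩ := ty_eq _ k hk
    have g1 := (gad (g := 1 + 4 * k) h1 (by unfold HH; omega) h3).1 t1
    have g2 := (gad (g := 1 + 4 * k + 1) h1 (by unfold HH; omega) h3).2.1 t2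
    have g3 := (gad (g := 1 + 4 * k + 2) h1 (by unfold HH; omega) h3).2.1 t3
    have g4 := (gad (g := 1 + 4 * k + 3) h1 (by unfold HH; omega) h3).2.1 t4
    have u : ∀ l < 16, isv l → rho P (4 + (16 * k + l)) = val (if l = 12 then 0 else if l = 10 then (eq E k).2.1 else
        if l = 8 then (eq E k).1 else if l = 1 then (eq E k).2.2.1 else (eq E k).2.2.2) := fun l hl hv => by
      rw [us _ (by omega) (by unfold isv at *; omega)]
      simp only [uv, show (16 * k + l) % 16 = l by omega, show (16 * k + l) / 16 = k by omega]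
    have w : ∀ l < 16, ∀ l', s1 E (16 * k + l) = 4 + (16 * k + l') → rho P (4 + (16 * k + l')) = rho P (4 + (16 * k + l)) :=
      fun l hl l' e => by rw [← rs (4 + (16 * k + l)) (by unfold HH; omega), sm1 (by omega), e]
    have u0 := u 0 (by omega) (by decide)
    have u1 := u 1 (by omega) (by decide)
    have u4 := u 4 (by omega) (by decide)
    have u8 := u 8 (by omega) (by decide)
    have u10 := u 10 (by omega) (by decide)
    have u12 := u 12 (by omega) (by decide)
    have w2 := w 2 (by omega) 6 (by unfold s1 isv; split_ifs <;> omega)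
    have w5 := w 5 (by omega) 14 (by unfold s1 isv; split_ifs <;> omega)
    have w9 := w 9 (by omega) 13 (by unfold s1 isv; split_ifs <;> omega)
    rw [show 4 * (1 + 4 * k) = 4 + (16 * k + 0) by ring] at g1
    rw [show 4 * (1 + 4 * k + 1) = 4 + (16 * k + 4) by ring] at g2
    rw [show 4 * (1 + 4 * k + 2) = 4 + (16 * k + 8) by ring] at g3
    rw [show 4 * (1 + 4 * k + 3) = 4 + (16 * k + 12) by ring] at g4
    simp only [add_assoc, Nat.reduceAdd] at g1 g2 g3 g4
    simp at u0 u1 u4 u8 u10 u12 g1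
    rw [u0, u1] at g1
    rw [u4, w2] at g2
    rw [u8, u10] at g3
    rw [u12, w5, w9] at g4
    unfold Q4.ok
    field_simp
    linear_combination -g3 + g4 + val 0 * (g2 + g1)
  · exfalso
    have hH : 4 ≤ HH M E := by unfold HH; omega
    obtain ⟨a1, a2, a3, a4, a5⟩ := hexa (g := 0) h1 (by omega)
    obtain ⟨b1, b2, b3, b4, b5⟩ := hexa (g := 1) h1 (by omega)
    obtain ⟨κ, k⟩ := h2 0 (by omega)
    have r := rho_of h1 (by omega) (sm_ok h0 hE (by omega)).1 k
    obtain ⟨n0, c0⟩ := h3 0 (by omega)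
    obtain ⟨-, c4⟩ := h3 4 (by omega)
    obtain ⟨n6, c6⟩ := h3 6 (by omega)
    simp [sm, fl, rho, be, ty, tb] at r c0 c4 c6 a1 a2 a3 a4 a5 b1 b2 b3 b4 b5
    rw [div_eq_div_iff b4 a4] at r
    rw [a1] at c0
    rw [a2, a3, b2, b3] at c4
    rw [b1] at c6
    obtain ⟨p, hp⟩ : ∃ p, P 1 = p * P 0 := ⟨P 1 / P 0, by field_simp⟩
    obtain ⟨q, hq⟩ : ∃ q, P 7 = q * P 6 := ⟨P 7 / P 6, by field_simp⟩
    have e3 : P 3 = p ^ 2 * P 0 := mul_left_cancel₀ n0 (by rw [← c0, hp]; ring)
    have e9 : P 9 = q ^ 2 * P 6 := mul_left_cancel₀ n6 (by rw [← c6, hq]; ring)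
    rw [e3] at a5
    rw [hp] at a4
    rw [hq] at b4
    rw [e3, e9, hp, hq] at r
    rw [e3, e9] at c4
    have pq : p = q := by
      refine sub_eq_zero.1 (mul_left_cancel₀ (mul_ne_zero a4 b4) ?_)
      linear_combination -r
    subst pq
    have : (p ^ 2 * P 0 - P 0) * ((p ^ 2 + 1) * P 6) = 0 := by linear_combination -c4
    rcases mul_eq_zero.1 this with e | e
    · exact a5 e
    · exact mul_ne_zero (by positivity) n6 e

noncomputable def vl (E : List Q4) (x : ℕ → ℝ) (g l : ℕ) : ℝ :=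
  if g = 0 then l else if l = 0 then 0 else if l = 1 then 1 else if g < 1 + 4 * E.length then
    (if l = 2 then (if g % 4 = 3 then 2 * x (eq E ((g - 1) / 4)).1 else if g % 4 = 0 then 2 * x 0
        else 2 * x (eq E ((g - 1) / 4)).2.2.2)
      else if g % 4 = 1 then 2 * x (eq E ((g - 1) / 4)).2.2.1
      else if g % 4 = 2 then 2 * (x (eq E ((g - 1) / 4)).1 * x (eq E ((g - 1) / 4)).2.1)
      else 4 * (x (eq E ((g - 1) / 4)).1 * x (eq E ((g - 1) / 4)).2.1))
  else 2 * x ((g - (1 + 4 * E.length)) / (16 * E.length))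

theorem complete (h0 : 0 < M) (hE : ∀ e ∈ E, Q4.lt M e) {x : ℕ → ℝ} (x0 : x 0 = 1) (one : ∀ i < M, 1 ≤ x i)
    (hx : ∀ e ∈ E, Q4.ok x e) : Co' (24 * HH M E) (nbr (sm M E) (be E.length)) := by
  let P : ℕ → ℝ := fun f => vl E x (f / 24) (pt (ty E.length (f / 24)) (f % 24))
  have eP : ∀ g, ∀ j < 24, P (24 * g + j) = vl E x g (pt (ty E.length g) j) := fun g j hj => by
    simp only [P, show (24 * g + j) / 24 = g by omega, show (24 * g + j) % 24 = j by omega]
  have fe : ∀ k < E.length, 1 ≤ x (eq E k).1 ∧ 1 ≤ x (eq E k).2.1 ∧ 1 ≤ x (eq E k).2.2.1 ∧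
      x (eq E k).2.2.2 = x (eq E k).1 * x (eq E k).2.1 + x (eq E k).2.2.1 := fun k hk =>
    let ⟨a, b, c, _⟩ := hE _ (eq_mem hk); ⟨one _ a, one _ b, one _ c, (hx _ (eq_mem hk)).symm⟩
  have dv : ∀ r < M * (16 * E.length), r / (16 * E.length) < M := fun r hr => Nat.div_lt_of_lt_mul (by rwa [mul_comm])
  have inj : ∀ g, 4 * g + 4 ≤ HH M E → ∀ l < 4, ∀ l' < 4, (ty E.length g = 3 → l < 3 ∧ l' < 3) → l ≠ l' →
      vl E x g l ≠ vl E x g l' := fun g hg l hl l' hl' h3 hn => by
    unfold HH at hg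
    unfold vl
    by_cases g0 : g = 0
    · simpa [g0] using hn
    by_cases g1 : g < 1 + 4 * E.length
    · obtain ⟨a, b, c, d⟩ := fe ((g - 1) / 4) (by omega)
      have e : 1 ≤ x (eq E ((g - 1) / 4)).1 * x (eq E ((g - 1) / 4)).2.1 := by nlinarith
      have e' : x (eq E ((g - 1) / 4)).1 ≤ x (eq E ((g - 1) / 4)).1 * x (eq E ((g - 1) / 4)).2.1 := by nlinarith
      simp only [g0, g1, if_true, if_false, d, x0]
      split_ifs <;> first | omega | exact fun q => by linarith
    · have := one _ (dv (g - (1 + 4 * E.length)) (by omega))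
      have := h3 (by unfold ty; rw [if_neg g0, if_neg g1])
      simp only [g0, g1, if_false]
      split_ifs <;> first | omega | exact fun q => by linarith
  have h1 : ∀ f < 6 * HH M E, P (rot f) = P f ∧ P f ≠ P (fl f) := fun f hf => by
    obtain ⟨g, j, hg, hj, rfl⟩ := fform hf
    obtain ⟨-, -, -, -, a5, a6, a7, a8, a9, a10, -⟩ := tb_ok _ (ty_lt E.length g) j hj
    obtain ⟨-, -, -, -, -, -, -, -, b9, b10, -⟩ := tb_ok _ (ty_lt E.length g) _ a5
    rw [rot24, fl24, eP _ _ hj, eP _ _ a5, eP _ _ a6, a7]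
    exact ⟨rfl, inj g hg _ a9 _ b9 (fun t => ⟨a10 t, b10 t⟩) a8⟩
  have eR : ∀ g, ∀ p < 4, rho P (4 * g + p) = (vl E x g (pt (ty E.length g) (6 * p + 3)) - vl E x g (pt (ty E.length g) (6 * p))) /
      (vl E x g (pt (ty E.length g) (6 * p + 1)) - vl E x g (pt (ty E.length g) (6 * p))) := fun g p hp => by
    unfold rho
    rw [show 6 * (4 * g + p) = 24 * g + 6 * p by ring, add_assoc, add_assoc, eP _ _ (by omega), eP _ _ (by omega),
      eP _ _ (by omega)]
  have r3 : ∀ r, ∀ p < 4, rho P (4 + 16 * E.length + 4 * r + p) = 2 * x (r / (16 * E.length)) := fun r p hp => by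
    rw [show 4 + 16 * E.length + 4 * r = 4 * (1 + 4 * E.length + r) by ring, eR _ _ hp, ty_3]
    interval_cases p <;> simp [pt, vl]
  have r1 : ∀ k < E.length, ∀ l < 16, (isv l → rho P (4 + (16 * k + l)) = 2 * x (uv E (16 * k + l))) ∧
      ((l = 2 ∨ l = 6) → rho P (4 + (16 * k + l)) = x (eq E k).1 * x (eq E k).2.1 / x (eq E k).2.2.2) ∧
      ((l = 5 ∨ l = 14) → rho P (4 + (16 * k + l)) = 2 * (x (eq E k).1 * x (eq E k).2.1)) ∧
      ((l = 9 ∨ l = 13) → rho P (4 + (16 * k + l)) = 4 * (x (eq E k).1 * x (eq E k).2.1)) := fun k hk l hl => by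
    obtain ⟨t1, t2, t3, t4⟩ := ty_eq _ k hk
    obtain ⟨a, b, c, d⟩ := fe k hk
    have a' : x (eq E k).1 ≠ 0 := by linarith
    have d' : x (eq E k).2.2.2 ≠ 0 := by nlinarith
    have v : ∀ t < 4, ∀ l, vl E x (1 + 4 * k + t) l = if l = 0 then 0 else if l = 1 then 1 else if l = 2 then
        (if t = 2 then 2 * x (eq E k).1 else if t = 3 then 2 * x 0 else 2 * x (eq E k).2.2.2)
        else if t = 0 then 2 * x (eq E k).2.2.1 else if t = 1 then 2 * (x (eq E k).1 * x (eq E k).2.1)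
        else 4 * (x (eq E k).1 * x (eq E k).2.1) := fun t ht l => by
      simp only [vl, if_neg (show 1 + 4 * k + t ≠ 0 by omega), if_pos (show 1 + 4 * k + t < 1 + 4 * E.length by omega),
        show (1 + 4 * k + t - 1) / 4 = k by omega, show (1 + 4 * k + t) % 4 = 3 ↔ t = 2 by omega,
        show (1 + 4 * k + t) % 4 = 0 ↔ t = 3 by omega, show (1 + 4 * k + t) % 4 = 1 ↔ t = 0 by omega,
        show (1 + 4 * k + t) % 4 = 2 ↔ t = 1 by omega]
    rw [show 4 + (16 * k + l) = 4 * (1 + 4 * k + l / 4) + l % 4 by omega, eR _ _ (by omega)]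
    simp only [v _ (show l / 4 < 4 by omega), uv, show (16 * k + l) % 16 = l by omega, show (16 * k + l) / 16 = k by omega]
    interval_cases l <;> simp [isv, t1, t2, t3, t4, pt, x0] <;> field_simp <;> linarith
  refine tri_complete (tri_ok h0 hE) P h1 (fun g hg => ?_) fun f hf => ?_
  · obtain ⟨a1, -, a3⟩ := sm_ok h0 hE hg
    obtain ⟨κ, k1, k2⟩ := of_rho h1 hg a1 (s := sm M E) (by
      rcases hform hg with a | ⟨j, hj, rfl⟩ | ⟨r, hr, p, hp, rfl⟩
      · have e := fun p hp => eR 0 p hp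
        simp only [mul_zero, zero_add] at e
        rw [show sm M E g = fl g from if_pos a, e g a, e _ (by have := fl_div g; omega)]
        interval_cases g <;> simp [fl, ty, pt, vl] <;> norm_num
      · obtain ⟨k, l, hk, hl, rfl⟩ : ∃ k l, k < E.length ∧ l < 16 ∧ j = 16 * k + l := ⟨j / 16, j % 16, by omega, by omega, by omega⟩
        rw [sm1 hj]
        unfold s1
        split_ifs with g g1 g2 g3 g4
        · rw [r3 _ _ (by omega), (slot (uv_lt h0 hE hj) hj).2.1, (r1 k hk l hl).1 (by unfold isv at *; omega)]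
        · rw [show 16 * k + l + 8 = 4 + (16 * k + (l + 4)) by omega]
          rcases (by omega : l = 2 ∨ l = 9) with rfl | rfl
          · rw [(r1 k hk _ hl).2.1 (by omega), (r1 k hk _ (by omega)).2.1 (by omega)]
          · rw [(r1 k hk _ hl).2.2.2 (by omega), (r1 k hk _ (by omega)).2.2.2 (by omega)]
        · rw [show rho P (16 * k + l) = rho P (4 + (16 * k + (l - 4))) by congr 1; omega]
          rcases (by omega : l = 6 ∨ l = 13) with rfl | rfl
          · rw [(r1 k hk _ hl).2.1 (by omega), (r1 k hk _ (by omega)).2.1 (by omega)]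
          · rw [(r1 k hk _ hl).2.2.2 (by omega), (r1 k hk _ (by omega)).2.2.2 (by omega)]
        · rw [show 16 * k + l + 13 = 4 + (16 * k + 14) by omega, (r1 k hk _ hl).2.2.1 (by omega),
            (r1 k hk _ (by omega)).2.2.1 (by omega)]
        · rw [show 16 * k + l - 5 = 4 + (16 * k + 5) by omega, (r1 k hk _ hl).2.2.1 (by omega),
            (r1 k hk _ (by omega)).2.2.1 (by omega)]
        · rw [add_comm]
      · rw [sm2 _ hp, r3 _ _ hp]
        unfold s2
        split_ifs with g1 g2 g3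
        · rw [r3 _ _ (by omega), g1.2.2]
        · rw [← add_zero (4 + 16 * E.length + 4 * (r + 1)), r3 _ _ (by omega), g2.2.2]
        · have hN : 0 < 16 * E.length := Nat.pos_of_ne_zero fun e => by simp [e] at hr
          have := Nat.mod_lt r hN
          obtain ⟨g4, g5⟩ := g3.2
          rw [← g5]
          generalize r % (16 * E.length) = j at *
          obtain ⟨k, l, hk, hl, rfl⟩ : ∃ k l, k < E.length ∧ l < 16 ∧ j = 16 * k + l :=
            ⟨j / 16, j % 16, by omega, by omega, by omega⟩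
          exact (r1 k hk l hl).1 (by unfold isv at *; omega)
        · exact r3 _ _ hp)
    refine ⟨κ, k1, fun c1 c2 e => ?_⟩
    have a := a3 c1 c2
    have e0 := fun j hj => eP 0 j hj
    simp only [mul_zero, zero_add] at e0
    have := fl_div g
    rw [show sm M E g = fl g from if_pos a, e0 _ (by omega), e0 _ (by omega), e0 _ (by omega), e0 _ (by omega), e] at k2
    interval_cases g <;> simp [fl, ty, pt, vl] at k2 <;> norm_num at k2
  · obtain ⟨g, j, hg, hj, rfl⟩ := fform hf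
    obtain ⟨a1, -, -, a4, a5, -, -, -, -, -, a11, a12⟩ := tb_ok _ (ty_lt E.length g) j hj
    obtain ⟨b1, -, -, -, -, -, -, -, -, -, b11, -⟩ := tb_ok _ (ty_lt E.length g) _ a5
    rw [be24 _ _ hj, fl24, fl24, ← a4, eP _ _ hj, eP _ _ a5, eP _ _ a1, eP _ _ b1]
    by_cases t : ty E.length g = 0
    · obtain rfl : g = 0 := by unfold ty at t; split_ifs at t <;> omega
      rw [a4, t]
      simp only [vl, if_true]
      have : (pt 0 (tb 0 j) : ℝ) + pt 0 (fl j) = pt 0 j + pt 0 (fl (tb 0 j)) := by exact_mod_cast a12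
      linarith
    · rw [a11 t, b11 t]

def red (a : List Unit × List Q4) : CG := cg (24 * HH a.1.length a.2) (nbr (sm a.1.length a.2) (be a.2.length))

theorem pt_be : PT fun a : ℕ × ℕ => be a.1 a.2 := by unfold be tb ty; fun_prop
theorem pt_sm : PT fun a : (ℕ × List Q4) × ℕ => sm a.1.1 a.1.2 a.2 := by unfold sm s1 s2 uv eq isv fl; fun_prop

theorem pt_red : PT red := by
  have h1 : ∀ {f : ((List Unit × List Q4) × ℕ) × ℕ → ℕ}, PT f → PT fun a => be a.1.1.2.length (f a) := fun {f} hf =>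
    (pt_be.comp (g := fun a : ((List Unit × List Q4) × ℕ) × ℕ => (a.1.1.2.length, f a)) (by fun_prop) :)
  have h2 : ∀ {f : ((List Unit × List Q4) × ℕ) × ℕ → ℕ}, PT f → PT fun a => sm a.1.1.1.length a.1.1.2 (f a) := fun {f} hf =>
    (pt_sm.comp (g := fun a : ((List Unit × List Q4) × ℕ) × ℕ => ((a.1.1.1.length, a.1.1.2), f a)) (by fun_prop) :)
  have h3 : PT fun a : ((List Unit × List Q4) × ℕ) × ℕ =>
      nbr (sm a.1.1.1.length a.1.1.2) (be a.1.1.2.length) a.2 a.1.2 := by
    have b1 := h1 (f := fun a => a.1.2 / 4) (by fun_prop)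
    have b2 := h2 (f := fun a => a.1.2 / 24) (by fun_prop)
    have b3 := h2 (f := fun a => a.1.2 / 4 / 6) (by fun_prop)
    unfold nbr sg fl rot
    fun_prop
  unfold red cg HH
  refine PT.pair (by fun_prop) (PT.flatMap (PT.map ?_ (by fun_prop)) (by fun_prop))
  exact PT.pair (by fun_prop) (PT.pair h3 (by fun_prop))

end Pool.Agent.H.MP_8aa36a_lc
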